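import Pool.Agent.D0H60.LSF.Jf
import Pool.Agent.D0H60.LSF.Gen
import Pool.Agent.D0H60.LSF.Core

/-!
# The strong Lang-Silverman alternative in all families of elliptic curves with any number of
# parameters over number fields, at all points of degree `r` outside one set

Let `k` be a number field, `r ≥ 1` and `n = r [k : ℚ]`. Suppose that `r = 1` and `m ≥ 2` (or `m ≥ 1` if
`k ≠ ℚ`), or that `m ≥ n + 1`, or that `r ≤ m + 1` and `m ≥ c n ^ η`, where `η > 0` is arbitrary and `c`
depends only on `η`. There is ONE set `E₀` of points of `ℙ^m`, of density zero among the points of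
degree `r` over `k` whose coordinates span a space of dimension `r` over `k` (and among all points of
degree `r`, if `r ≤ 2` or `m` is large), such that for ALL non-constant rational functions `J` on `ℙ^m`
over `k`, of any degree `N` and with any poles, for example for the `j`-invariants of all elliptic
curves over the function field `k(t_1, …, t_m)`, the following holds at ALL points `x ∉ E₀` of degree
`r` over `k` and of large height. The field `k(x)` varies with `x`. For all elliptic curves `E` of
invariant `J(x)` over all number fields `K ⊇ k(x)` of degree at most `d`, for all forms `A` over `K`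
of `E ^ g`, all polarizations of `A` and all `P` in `A(K)`, either `P` has order at most `c₂` modulo a
proper abelian subvariety of degree at most `c₂` times that of `A`, or the canonical height of `P` is
at least `c₁` times the height of `A`. In particular the torsion is bounded. The constants `c₁ > 0`
and `c₂` depend only on `N`, `d`, `g` (and `κ`, see below), not on `J`, `k`, `m`, `r`.

For fixed `K` and `J` the number of the exceptional points of `ℙ^m(K)` of height at most `T` is at
most `C exp ((n (m + 1) - c) T)`, `n = [K : ℚ]`, where `c > 0`; there are about `exp (n (m + 1) T)`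
points.

Every non-constant function `J` on a variety `X` of dimension `m` over `k` is the first coordinate of a
generically finite rational map `π : X → ℙ^m`. So the theorem applies to the fibres of all families
of elliptic curves over all varieties `X` at all the points `P` of `X`, of any degree, with
`π(P) ∉ E₀` of degree `r` over `k`.

`E : y² = x³ + a x + b` is an elliptic curve of invariant `j` with `a`, `b` integral of height at
most `κ (1 + h(j))`.  A finite Galois extension `L` of `K` and a faithful representation `ρ` of its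
group by integral matrices of size `g` define an abelian variety `A` over `K`, the form of `E ^ g`
with `A(K) = {P ∈ E(L) ^ g | ρ(σ) σ(P) = P for all σ}` (`FixedPt ρ P`); for `g = 1` these are `E`
and all its quadratic twists.  A symmetric positive definite integral matrix `M` with
`ρ(σ)ᵀ M ρ(σ) = M` (`Polar ρ M`) is a polarization of `A` over `K`; the corresponding absolute
canonical height is `chatM M P / [L : ℚ]`.

`SubvarLe c ρ M P` is the first alternative: the columns of the primitive integral matrix `β` of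
size `g × m`, `m < g`, span a sublattice stable under `ρ`, and so define an abelian subvariety
`B` over `K` of dimension `m`, its degree for the polarization is at most `c` times that of `A`, and
`n P` is in `B` for some positive `n ≤ c`.  `Pts L a b` is the group of points over `L`, `sht P` the
height of the `x`-coordinate, `chat P` the canonical height (`ChatLim`: the limit of
`4⁻ⁿ sht (2ⁿ P)`), `RamPrimes K T` says that for each prime `v` in `T` there is `σ ≠ 1` in the
inertia group, `logNorms T` is the sum of `log N v`, `v ∈ T`, and `absH` is the absolute logarithmic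
height.

Known before (starting files): one-parameter families (`EveryOneParameterFamily` over `ℚ`,
`OneExceptionalSet`, where the points have a fixed field of definition, `ClosedPointsAllCurves`), and
families with several parameters along thin sequences of rational points, with constants which
depend on the proportion of the exceptions.

Proof. Let `J = A / B` in lowest terms. By the geometry of numbers over a number field `K` (starting
files) and by counting the points `x` with `v ^ 2 | B(x)`, for almost all points `x` of `ℙ^m(K)` the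
primes `v` of `K` which divide `B(x)` and not `A(x)` have `∑ log N v ≥ (1 - ε) n h(x)`, for any `B` of
any degree: if the part of `B(x)` from the primes of norm at most `H(x) ^ (1 - ε)` is small, then
there is a prime of norm at least `H(x) ^ (1 - ε)`. These primes are poles of `J(x)`, and
`h(J(x)) ≤ N h(x) + O(1)`. The bounds for the canonical heights follow from such a bound for the poles
of `j` (starting files). The sets of bad points over the infinitely many fields `K` and for the
countably many functions `J` are combined to one set by a bound for the number of points of bounded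
height over `K` which is uniform in `K`.
-/

set_option autoImplicit false

namespace Pool.Agent.Results.MP_f5471b_nt.AllFamiliesBoundedDegree

open NumberField IsDedekindDomain Module MvPolynomial
open Pool.Agent.TH910.LS Pool.Agent.Y725.LS
open scoped LinearAlgebra.Projectivization

/-! ### Points, fields of definition, heights, densities -/

/-- The complex point of a point over the subfield `K` of `ℂ`. -/
noncomputable def toC {K : IntermediateField ℚ ℂ} {m : ℕ} (Q : ℙ K (Fin (m + 1) → K)) :
    ℙ ℂ (Fin (m + 1) → ℂ) :=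
  Projectivization.mk ℂ (fun i => ((Q.rep i : K) : ℂ)) (fun h => Q.rep_nonzero
    (funext fun i => Subtype.ext (congrFun h i)))

/-- The field of definition `k(P)` of the point `P`: it is generated over `k` by the quotients of
the coordinates of `P`. -/
noncomputable def fieldOf (k : IntermediateField ℚ ℂ) {m : ℕ} (P : ℙ ℂ (Fin (m + 1) → ℂ)) :
    IntermediateField ℚ ℂ :=
  k ⊔ IntermediateField.adjoin ℚ {z : ℂ | ∃ i j, P.rep j ≠ 0 ∧ z = P.rep i / P.rep j}

/-- the dimension over `k` of the space spanned by the homogeneous coordinates of `P` -/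
noncomputable def spanDim (k : IntermediateField ℚ ℂ) {m : ℕ} (P : ℙ ℂ (Fin (m + 1) → ℂ)) : ℕ :=
  finrank k (Submodule.span k (Set.range P.rep))

/-- the absolute logarithmic height of a point of `ℙ^m(K)` -/
noncomputable def height {K : Type} [Field K] [NumberField K] {m : ℕ}
    (Q : ℙ K (Fin (m + 1) → K)) : ℝ :=
  Real.log Q.mulHeight / finrank ℚ K

/-- the points of `ℙ^m` whose field of definition has degree `r` over `k`, of absolute logarithmic
height at most `T` -/
def All (k : IntermediateField ℚ ℂ) (m r : ℕ) (T : ℝ) : Set (ℙ ℂ (Fin (m + 1) → ℂ)) :=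
  {P | ∃ (K : IntermediateField ℚ ℂ) (_ : NumberField K) (_ : k ≤ K)
    (Q : ℙ K (Fin (m + 1) → K)), fieldOf k P = K ∧
    finrank ℚ K = r * finrank ℚ k ∧ toC Q = P ∧ height Q ≤ T}

/-- those of these points whose coordinates span a space of dimension `r` over `k` -/
def Full (k : IntermediateField ℚ ℂ) (m r : ℕ) (T : ℝ) : Set (ℙ ℂ (Fin (m + 1) → ℂ)) :=
  {P | spanDim k P = r ∧ ∃ (K : IntermediateField ℚ ℂ) (_ : NumberField K) (_ : k ≤ K)
    (Q : ℙ K (Fin (m + 1) → K)), fieldOf k P = K ∧
    finrank ℚ K = r * finrank ℚ k ∧ toC Q = P ∧ height Q ≤ T}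

/-- the set `E` has density zero in the exhaustion `F` -/
def DensityZero {X : Type} (F : ℝ → Set X) (E : Set X) : Prop :=
  ∀ ε : ℝ, 0 < ε → ∃ B₀ : ℝ, ∀ B : ℝ, B₀ ≤ B → ((E ∩ F B).ncard : ℝ) ≤ ε * ((F B).ncard : ℝ)

/-- the form `F` over the larger field `K` -/
noncomputable def formOver {k K : IntermediateField ℚ ℂ} (h : k ≤ K) {m : ℕ}
    (F : MvPolynomial (Fin (m + 1)) (𝓞 k)) : MvPolynomial (Fin (m + 1)) (𝓞 K) :=
  MvPolynomial.map (RingOfIntegers.mapRingHom (IntermediateField.inclusion h).toRingHom) F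

/-- `min (n + 1, c n ^ η)` -/
noncomputable def threshold (c η : ℝ) (n : ℕ) : ℝ := min ((n : ℝ) + 1) (c * (n : ℝ) ^ η)

/-! ### The strong alternative -/

/-- the alternative, with the constants `c₁` and `c₂`, for all forms of dimension `g` of the powers
of the curve `y² = x³ + a x + b` over `K` that are split by `L` -/
def Alternative (c₁ : ℝ) (c₂ g : ℕ) {K : Type} [Field K] [NumberField K] (a b : 𝓞 K) (L : Type)
    [Field L] [NumberField L] [Algebra K L] [DecidableEq L] : Prop :=
  ∀ (ρ : (L ≃ₐ[K] L) →* Matrix (Fin g) (Fin g) ℤ) (M : Matrix (Fin g) (Fin g) ℤ)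
    (P : Fin g → Pts L a b) (T : Finset (HeightOneSpectrum (𝓞 L))),
    Faithful ρ → Polar ρ M → FixedPt ρ P → RamPrimes K T →
      SubvarLe c₂ ρ M P ∨
      (¬ IsOfFinAddOrder P ∧
        c₁ * (1 + absH (jinv (a : K) b) + logNorms T / Module.finrank ℚ L) ≤
          chatM M P / Module.finrank ℚ L)

/-- The alternative, with constants `c₁` and `c₂`, holds for all elliptic curves of invariant
`j ∈ M` over all number fields `K ⊇ M` of degree at most `d`, given by an integral equation
`y² = x³ + a x + b` whose coefficients have height at most `κ (1 + h(j))`, and for all forms of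
dimension `g` of their powers. -/
def HoldsAt (c₁ : ℝ) (c₂ d g : ℕ) (κ : ℝ) {M : Type} [Field M] [NumberField M] (j : M) : Prop :=
  ∀ (K : Type) [Field K] [NumberField K] [Algebra M K], Module.finrank ℚ K ≤ d →
    ∀ a b : 𝓞 K, 4 * (a : K) ^ 3 + 27 * (b : K) ^ 2 ≠ 0 →
      absH (a : K) + absH (b : K) ≤ κ * (1 + absH (jinv (a : K) b)) →
      jinv (a : K) b = algebraMap M K j →
      ∀ (L : Type) [Field L] [NumberField L] [Algebra K L] [IsGalois K L] [DecidableEq L],
        ChatLim L a b ∧ Alternative c₁ c₂ g a b L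

/-- `J = A / B` is a rational function of degree `N ≥ 1` on `ℙ^m` over `K`: `A` and `B ≠ 0` are forms
over `O_K` of degree `N` without common factor over `K`. -/
def IsFunction {K : Type} [Field K] [NumberField K] {m : ℕ} (N : ℕ)
    (A B : MvPolynomial (Fin (m + 1)) (𝓞 K)) : Prop :=
  1 ≤ N ∧ A.IsHomogeneous N ∧ B.IsHomogeneous N ∧ B ≠ 0 ∧
    ∀ P : MvPolynomial (Fin (m + 1)) K, P ∣ map (algebraMap (𝓞 K) K) A →
      P ∣ map (algebraMap (𝓞 K) K) B → IsUnit P

/-- One has `B(Q) ≠ 0` and the alternative holds at `J(Q) = A(Q) / B(Q)`, for all `d`, `g ≥ 1` and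
`κ ≥ 0`, with the constants `c₁(N, d, g, κ)` and `c₂(N, d, g, κ)`: for all elliptic curves of invariant
`J(Q)` over all number fields of degree at most `d` containing `K` and for all forms of dimension `g`
of their powers. -/
def HoldsAtPoint (c₁ : ℕ → ℕ → ℕ → ℝ → ℝ) (c₂ : ℕ → ℕ → ℕ → ℝ → ℕ) (N : ℕ) {K : Type} [Field K]
    [NumberField K] {m : ℕ} (A B : MvPolynomial (Fin (m + 1)) (𝓞 K))
    (Q : ℙ K (Fin (m + 1) → K)) : Prop :=
  aeval Q.rep B ≠ 0 ∧ ∀ (d g : ℕ) (κ : ℝ), 0 < g → 0 ≤ κ →
    HoldsAt (c₁ N d g κ) (c₂ N d g κ) d g κ (aeval Q.rep A / aeval Q.rep B)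

/-- (A) the points over one field -/
def OneField (c₁ : ℕ → ℕ → ℕ → ℝ → ℝ) (c₂ : ℕ → ℕ → ℕ → ℝ → ℕ) : Prop :=
  ∀ (K : Type) [Field K] [NumberField K] (m N : ℕ) (A B : MvPolynomial (Fin (m + 1)) (𝓞 K)),
    1 ≤ m → (2 ≤ m ∨ 2 ≤ finrank ℚ K) → IsFunction N A B → ∃ c C : ℝ, 0 < c ∧ ∀ T : ℝ, 0 ≤ T →
      ({Q : ℙ K (Fin (m + 1) → K) | height Q ≤ T ∧ ¬ HoldsAtPoint c₁ c₂ N A B Q}.ncard : ℝ) ≤
        C * Real.exp (((finrank ℚ K : ℝ) * (m + 1) - c) * T)

/-- (B) the points of degree `r` outside `E₀` -/
def AllFunctions (c₁ : ℕ → ℕ → ℕ → ℝ → ℝ) (c₂ : ℕ → ℕ → ℕ → ℝ → ℕ) (k : IntermediateField ℚ ℂ)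
    [NumberField k] (m r : ℕ) (E₀ : Set (ℙ ℂ (Fin (m + 1) → ℂ))) : Prop :=
  ∀ (N : ℕ) (A B : MvPolynomial (Fin (m + 1)) (𝓞 k)), IsFunction N A B → ∃ T : ℝ,
    ∀ (K : IntermediateField ℚ ℂ) (_ : NumberField K) (h : k ≤ K) (Q : ℙ K (Fin (m + 1) → K)),
      fieldOf k (toC Q) = K → finrank ℚ K = r * finrank ℚ k → toC Q ∉ E₀ → T < height Q →
      HoldsAtPoint c₁ c₂ N (formOver h A) (formOver h B) Q

/-- **Theorem.** (1) There are constants `c₁(N, d, g, κ) > 0` and `c₂(N, d, g, κ)` with the following
two properties.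

(A) Let `K` be a number field and `m ≥ 1`, `m ≥ 2` if `K = ℚ`. Let `J = A / B` be a rational function on
`ℙ^m` over `K`, `A` and `B ≠ 0` forms over `O_K` of degree `N ≥ 1` without common factor over `K`. For
all points `Q` of `ℙ^m(K)` of height at most `T`, with at most `C exp (([K : ℚ] (m + 1) - c) T)`
exceptions, where `c > 0`, one has `B(Q) ≠ 0` and the alternative holds at `J(Q)`, for all `d`,
`g ≥ 1` and `κ ≥ 0`, with the constants `c₁(N, d, g, κ)` and `c₂(N, d, g, κ)` (`OneField`).

(B) Let `η > 0`. There is a constant `c` such that for all number fields `k ⊆ ℂ` and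
`m, r ≥ 1`, with `n = r [k : ℚ]`, such that `r = 1` and `m ≥ 2` or `k ≠ ℚ`, or such that `r ≤ m + 1` and
`m ≥ min (n + 1, c n ^ η)`, there is ONE set `E₀` of points of `ℙ^m` such that

(a) `E₀` has density zero (with respect to the absolute height) among the points whose field of
definition has degree `r` over `k` and whose coordinates span a space of dimension `r` over `k`; and
if `r ≤ 2` or `r (r - 1) (min (n + 1, c n ^ η) + 1) + r ≤ m + 1` then `E₀` and the points whose
coordinates do not span a space of dimension `r` have density zero among ALL points of degree `r` over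
`k`;

(b) for ALL rational functions `J = A / B` on `ℙ^m`, `A` and `B ≠ 0` forms over `O_k` of degree
`N ≥ 1` without common factor over `k`, there is `T` such that at ALL points `Q ∉ E₀` of height
`h(Q) > T` whose field of definition `K` has degree `r` over `k` one has `B(Q) ≠ 0` and the
alternative holds at `J(Q)`, for all `d`, `g ≥ 1` and `κ ≥ 0`, with the constants `c₁(N, d, g, κ)` and
`c₂(N, d, g, κ)`: for all elliptic curves of invariant `J(Q)` over all number fields of degree at
most `d` containing `K` and for all forms of dimension `g` of their powers (`AllFunctions`).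

(2) Every `j ≠ 0, 1728` in a number field of degree at most `d` is the invariant of a curve with small
coefficients, as assumed in `HoldsAt`, with a `κ` depending only on `d`. -/
theorem result :
    (∃ (c₁ : ℕ → ℕ → ℕ → ℝ → ℝ) (c₂ : ℕ → ℕ → ℕ → ℝ → ℕ), (∀ N d g κ, 0 < c₁ N d g κ) ∧
      -- one number field, one rational function
      OneField c₁ c₂ ∧
      -- all number fields of degree `r` over `k`, all rational functions
      ∀ η : ℝ, 0 < η → ∃ c₀ : ℝ, ∀ (k : IntermediateField ℚ ℂ) [NumberField k] (m r : ℕ),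
        1 ≤ m → 1 ≤ r →
        (r = 1 ∧ (2 ≤ m ∨ 2 ≤ finrank ℚ k)) ∨
          (r ≤ m + 1 ∧ threshold c₀ η (r * finrank ℚ k) ≤ m) →
        ∃ E₀ : Set (ℙ ℂ (Fin (m + 1) → ℂ)), DensityZero (Full k m r) E₀ ∧
          (r ≤ 2 ∨ (r : ℝ) * (r - 1) * (threshold c₀ η (r * finrank ℚ k) + 1) + r ≤ m + 1 →
            DensityZero (All k m r) (E₀ ∪ {P | spanDim k P ≠ r})) ∧
          AllFunctions c₁ c₂ k m r E₀) ∧
    -- the models
    ∀ d : ℕ, ∃ κ : ℝ, 0 ≤ κ ∧ ∀ (K : Type) [Field K] [NumberField K],
      Module.finrank ℚ K ≤ d → ∀ j : K, j ≠ 0 → j ≠ 1728 → ∃ a b : 𝓞 K,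
        4 * (a : K) ^ 3 + 27 * (b : K) ^ 2 ≠ 0 ∧ jinv (a : K) b = j ∧
        absH (a : K) + absH (b : K) ≤ κ * (1 + absH j) := by
  classical
  refine ⟨?_, Pool.Agent.Y728.AK.exists_model⟩
  have hex : ∀ (N d g : ℕ) (κ : ℝ), ∃ c₁ : ℝ, 0 < c₁ ∧ ∃ c₂ : ℕ, 0 < g → 0 ≤ κ →
      ∀ (M : Type) [Field M] [NumberField M] (j : M), Pool.Agent.D0H60.LSF.Poles N j →
        HoldsAt c₁ c₂ d g κ j := by
    intro N d g κ
    by_cases hg : 0 < g ∧ 0 ≤ κ
    · obtain ⟨c₁, hc₁, c₂, h⟩ := Pool.Agent.D0H60.LSF.strong_of_poles d g hg.1 κ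
        (2 * ((N : ℝ) + 1)) hg.2 (by positivity)
      refine ⟨c₁, hc₁, c₂, fun _ _ M _ _ j hj => ?_⟩
      obtain ⟨W, hW, hle⟩ := hj
      exact h M j W hW hle
    · exact ⟨1, one_pos, 0, fun h1 h2 => absurd ⟨h1, h2⟩ hg⟩
  choose c₁ hc₁ c₂ hall using hex
  refine ⟨c₁, c₂, hc₁, ?_, fun η hη => ?_⟩
  · intro K _ _ m N A B hm hmK hJ
    obtain ⟨hN, hA, hB, hB0, hcop⟩ := hJ
    have hK1 : 1 ≤ finrank ℚ K := finrank_pos
    have hd : 3 ≤ finrank ℚ K * (m + 1) := by
      rcases hmK with h | h
      · calc 3 ≤ 1 * (m + 1) := by omega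
          _ ≤ finrank ℚ K * (m + 1) := Nat.mul_le_mul_right _ hK1
      · calc 3 ≤ 2 * (1 + 1) := by omega
          _ ≤ finrank ℚ K * (m + 1) := Nat.mul_le_mul h (by omega)
    obtain ⟨φ⟩ : Nonempty (K →+* ℂ) := inferInstance
    obtain ⟨c, C, hc, -, h⟩ := Pool.Agent.D0H60.LSF.poles_aa (K := K) (m := m) φ hd hN hA hB hB0
      fun P hP h1 h2 => hP.not_isUnit (hcop P h2 h1)
    refine ⟨c, C, hc, fun T hT => ?_⟩
    obtain ⟨Z, hZ, h⟩ := h T hT
    refine le_trans ?_ hZ
    have hsub : {Q : ℙ K (Fin (m + 1) → K) | height Q ≤ T ∧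
        ¬ HoldsAtPoint c₁ c₂ N A B Q} ⊆ ↑Z := by
      rintro Q ⟨hQ, hbad⟩
      by_contra hQZ
      have hn0 : (0 : ℝ) < finrank ℚ K := by exact_mod_cast hK1
      have hQ' : Real.log Q.mulHeight ≤ finrank ℚ K * T := by
        unfold height at hQ
        rw [div_le_iff₀ hn0] at hQ
        linarith
      obtain ⟨h1, h2⟩ := h Q hQ' (fun h3 => hQZ (Finset.mem_coe.2 h3))
      exact hbad ⟨h1, fun d g κ hg hκ => hall N d g κ hg hκ K _ h2⟩
    have h3 := Set.ncard_le_ncard hsub Z.finite_toSet
    rw [Set.ncard_coe_finset] at h3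
    exact_mod_cast h3
  obtain ⟨c₀, hgen⟩ := Pool.Agent.D0H60.LSF.gen_thr η hη
  refine ⟨c₀, fun k _ m r hm hr hyp => ?_⟩
  obtain ⟨hnm, hmain⟩ := hgen k m r hm hr hyp
  have hcount := Pool.Agent.N752.HY.countable_poly k m
  have hne : Nonempty ((MvPolynomial (Fin (m + 1)) (𝓞 k) ×
    MvPolynomial (Fin (m + 1)) (𝓞 k)) × ℕ) := ⟨((0, 0), 0)⟩
  obtain ⟨E₀, hE₀, hdens, hT⟩ := hmain ((MvPolynomial (Fin (m + 1)) (𝓞 k) ×
    MvPolynomial (Fin (m + 1)) (𝓞 k)) × ℕ) (Pool.Agent.D0H60.LSF.PrJ k m)
    fun i => Pool.Agent.D0H60.LSF.aap_poles k _ hnm i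
  refine ⟨E₀, hE₀, hdens, fun N A B hJ => ?_⟩
  obtain ⟨hN, hA, hB, hB0, hcop⟩ := hJ
  obtain ⟨T, hT⟩ := hT ((A, B), N)
  refine ⟨T, fun K hK h Q hf _ hQE hTQ => ?_⟩
  obtain ⟨h1, h2⟩ := hT K hK h Q hf hQE hTQ ⟨hN, hA, hB, hB0, hcop⟩
  exact ⟨h1, fun d g κ hg hκ => hall N d g κ hg hκ K _ h2⟩

end Pool.Agent.Results.MP_f5471b_nt.AllFamiliesBoundedDegree
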