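import Pool.Agent.D0H5.CS.Near
import Pool.Agent.Results.MP_f5471b_nt.EveryOneParameterFamily

/-!
# The strong Lang-Silverman alternative in every one-parameter family, at arguments near the values of compositions of
# multiplicative functions

As in the starting file `EveryOneParameterFamily`, let `J = A / D` be a non-constant rational function over `ℚ` of degree `N`,
for example the `j`-invariant of an elliptic curve over `ℚ(T)`. `HoldsInt`, `HoldsRat` say that `t`, `(s : t)` is not a pole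
of `J` and that for all elliptic curves `E` of invariant `J(t)`, `J(s : t)` over all number fields `K` of degree at most `d`,
for all forms `A` over `K` of `E ^ g` (for `g = 1`: all twists), all polarizations of `A` and all `P` in `A(K)`, either `P` has
order at most `c₂` modulo a proper abelian subvariety of degree at most `c₂` times that of `A`, or the canonical height of `P`
is at least `c₁` times the height of `A`. In particular torsion is bounded.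

Let `F`, `F_0`, `F_1` be arbitrary compositions `f_1 ∘ ... ∘ f_r` of functions of the class `LM`: positive multiplicative
functions of at most polynomial growth, with `f p ≤ M p` at the large primes, and injective there; for example
`φ(σ(φ(m)))`.

**Theorem.** The constants `c₁ > 0` and `c₂` depend only on `N`, `d`, `g`, `κ`, `θ` (not on `J` or the compositions).
(1) If `θ < 1`: for all `J` of degree `N`, all `F`, `α > 0` and `U`, for all large `X` and all `m ≤ X` but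
`X / (log X) ^ U`, the alternative holds for ALL integral arguments `t ≠ 0` in the windows `| |t| - α F(m) | ≤ F(m) ^ θ`, for
instance at `t = ± F(m)`.
(2) If `θ < 1 / 2`: for all `J` of degree `N`, all `F_0`, `F_1` and `U`, for all large `X` and all pairs `(m_0, m_1)` in
`[1, X] ^ 2` but `X ^ 2 / (log X) ^ U`, the alternative holds for ALL rational arguments `(s : t)`, `s`, `t` integers, coprime or
not, with `| |s| - F_0(m_0) | ≤ F_0(m_0) ^ θ` and `| |t| - F_1(m_1) | ≤ F_1(m_1) ^ θ`, for instance at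
`± F_0(m_0) / F_1(m_1)`.

The starting file counts the exceptional arguments (`O(B ^ ε)` integral ones, `O(B ^ (1 + ε))` rational ones of height at most
`B`). The values of a composition such as `φ(φ(m))` form a thin set and are taken with very large multiplicities, so this
does not say for how many `m` the argument `F(m)` is exceptional. The tools are the theorem of `Pool.Agent.D0H71.CM`
(a composition takes values in a set with a power saving only for `X / (log X) ^ U` of the `m`), windows for it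
(`Pool.Agent.D0H5.CS`), and a count of the exceptional pairs `(s, t)` which are not coprime.
-/

set_option autoImplicit false

namespace Pool.Agent.Results.MP_f5471b_nt.CompositionArguments

open Polynomial Finset
open Pool.Agent.N733.TG (LM lm_totient lm_sigma)
open Pool.Agent.D0H71.CM (Comp av_comp ckeep_int)
open Pool.Agent.D0H5.CS (ckeep_near)
open EveryOneParameterFamily (IsFunction Pairs HoldsAt HoldsRat HoldsInt formValue)

theorem formValue_mul (N : ℕ) (f : ℤ[X]) (l s t : ℤ) :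
    formValue N f (l * s) (l * t) = l ^ N * formValue N f s t := by
  unfold formValue
  rw [mul_sum]
  refine sum_congr rfl fun i hi => ?_
  have hi' : i ≤ N := by
    rw [mem_range] at hi
    omega
  have h1 : l ^ N = l ^ i * l ^ (N - i) := by
    rw [← pow_add]
    congr 1
    omega
  rw [mul_pow, mul_pow, h1]
  ring

theorem holdsRat_mul {c₁ : ℝ} {c₂ d g : ℕ} {κ : ℝ} {N : ℕ} {A D : ℤ[X]} {l s t : ℤ} (hl : l ≠ 0)
    (h : HoldsRat c₁ c₂ d g κ N A D (s, t)) : HoldsRat c₁ c₂ d g κ N A D (l * s, l * t) := by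
  obtain ⟨h1, h2⟩ := h
  have hlN : l ^ N ≠ 0 := pow_ne_zero _ hl
  refine ⟨?_, ?_⟩
  · show formValue N D (l * s) (l * t) ≠ 0
    rw [formValue_mul]
    exact mul_ne_zero hlN h1
  · show HoldsAt c₁ c₂ d g κ (((formValue N A (l * s) (l * t) : ℤ) : ℚ) / ((formValue N D (l * s) (l * t) : ℤ) : ℚ))
    rw [formValue_mul, formValue_mul, Int.cast_mul, Int.cast_mul, mul_div_mul_left _ _ (by exact_mod_cast hlN)]
    exact h2

/-- the number of the exceptional pairs, coprime or not -/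
theorem count_pairs (Q : ℤ × ℤ → Prop) (hQ : ∀ l s t : ℤ, l ≠ 0 → Q (s, t) → Q (l * s, l * t)) {C ε : ℝ} (hC : 0 ≤ C)
    (hε : 0 < ε)
    (h : ∀ B : ℕ, 1 ≤ B → ({P | P ∈ Pairs B ∧ ¬ Q P}.ncard : ℝ) ≤ C * (B : ℝ) ^ (1 + ε)) (X : ℕ) (hX : 1 ≤ X) :
    ({P : ℤ × ℤ | P ≠ 0 ∧ |P.1| ≤ (X : ℤ) ∧ |P.2| ≤ (X : ℤ) ∧ ¬ Q P}.ncard : ℝ) ≤
      C * (1 + 1 / ε) * (X : ℝ) ^ (1 + 2 * ε) := by
  classical
  have hX1 : (1 : ℝ) ≤ X := by exact_mod_cast hX
  have hX0 : (0 : ℝ) < X := by linarith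
  have hfin : ∀ B : ℕ, {P : ℤ × ℤ | P ∈ Pairs B ∧ ¬ Q P}.Finite := by
    intro B
    refine ((Set.finite_Icc (-(B : ℤ)) B).prod (Set.finite_Icc (-(B : ℤ)) B)).subset ?_
    rintro P ⟨⟨-, h1, h2⟩, -⟩
    exact ⟨abs_le.1 h1, abs_le.1 h2⟩
  have hsub : {P : ℤ × ℤ | P ≠ 0 ∧ |P.1| ≤ (X : ℤ) ∧ |P.2| ≤ (X : ℤ) ∧ ¬ Q P} ⊆
      ⋃ l ∈ Icc 1 X, (fun P : ℤ × ℤ => ((l : ℤ) * P.1, (l : ℤ) * P.2)) '' {P | P ∈ Pairs (X / l) ∧ ¬ Q P} := by
    rintro ⟨s, t⟩ ⟨h0, h1, h2, h3⟩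
    simp only at h1 h2
    have hg : Int.gcd s t ≠ 0 := by
      intro hg
      rw [Int.gcd_eq_zero_iff] at hg
      exact h0 (by rw [hg.1, hg.2]; rfl)
    obtain ⟨l, hl⟩ : ∃ l : ℕ, l = Int.gcd s t := ⟨_, rfl⟩
    have hl0 : 0 < l := by
      rw [hl]
      exact Nat.pos_of_ne_zero hg
    have hlz : (l : ℤ) ≠ 0 := by
      exact_mod_cast hl0.ne'
    obtain ⟨s', hs'⟩ : (l : ℤ) ∣ s := by
      rw [hl]
      exact Int.gcd_dvd_left ..
    obtain ⟨t', ht'⟩ : (l : ℤ) ∣ t := by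
      rw [hl]
      exact Int.gcd_dvd_right ..
    have hcop : IsCoprime s' t' := by
      rw [Int.isCoprime_iff_gcd_eq_one]
      have h5 : Int.gcd s t = l * Int.gcd s' t' := by
        rw [hs', ht', Int.gcd_mul_left, Int.natAbs_natCast]
      rw [← hl] at h5
      have h6 : l * 1 = l * Int.gcd s' t' := by rw [mul_one]; exact h5
      exact (Nat.eq_of_mul_eq_mul_left hl0 h6).symm
    have hbd : ∀ z z' : ℤ, z = l * z' → |z| ≤ (X : ℤ) → |z'| ≤ ((X / l : ℕ) : ℤ) := by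
      intro z z' hz hzX
      rw [hz, abs_mul, abs_of_nonneg (by positivity : (0 : ℤ) ≤ l)] at hzX
      rw [Int.natCast_div]
      rw [Int.le_ediv_iff_mul_le (by exact_mod_cast hl0)]
      linarith
    have hlX : l ≤ X := by
      by_contra hneg
      push Not at hneg
      have h7 : X / l = 0 := Nat.div_eq_of_lt hneg
      have h8 := hbd s s' hs' h1
      have h9 := hbd t t' ht' h2
      rw [h7, Nat.cast_zero] at h8 h9
      have h10 : s' = 0 := abs_eq_zero.1 (le_antisymm h8 (abs_nonneg _))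
      have h11 : t' = 0 := abs_eq_zero.1 (le_antisymm h9 (abs_nonneg _))
      rw [h10, h11] at hcop
      exact not_isCoprime_zero_zero hcop
    rw [Set.mem_iUnion₂]
    refine ⟨l, mem_Icc.2 ⟨hl0, hlX⟩, (s', t'), ⟨⟨hcop, hbd s s' hs' h1, hbd t t' ht' h2⟩, ?_⟩, ?_⟩
    · intro h4
      apply h3
      rw [hs', ht']
      exact hQ l s' t' hlz h4
    · simp only
      rw [hs', ht']
  have hfinU : (⋃ l ∈ Icc 1 X, (fun P : ℤ × ℤ => ((l : ℤ) * P.1, (l : ℤ) * P.2)) ''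
      {P | P ∈ Pairs (X / l) ∧ ¬ Q P}).Finite :=
    Set.Finite.biUnion (finite_toSet _) fun l _ => (hfin _).image _
  have h1 := (Set.ncard_le_ncard hsub hfinU).trans (Finset.set_ncard_biUnion_le _ _)
  have h2 : ∀ l ∈ Icc 1 X, ((((fun P : ℤ × ℤ => ((l : ℤ) * P.1, (l : ℤ) * P.2)) ''
      {P | P ∈ Pairs (X / l) ∧ ¬ Q P}).ncard : ℕ) : ℝ) ≤ C * (X : ℝ) ^ (1 + ε) * ((l : ℝ)⁻¹) := by
    intro l hl
    rw [mem_Icc] at hl
    have hl1 : (1 : ℝ) ≤ l := by exact_mod_cast hl.1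
    have hl0 : (0 : ℝ) < l := by linarith
    have h3 : (((fun P : ℤ × ℤ => ((l : ℤ) * P.1, (l : ℤ) * P.2)) '' {P | P ∈ Pairs (X / l) ∧ ¬ Q P}).ncard) ≤
        {P | P ∈ Pairs (X / l) ∧ ¬ Q P}.ncard := Set.ncard_image_le (hfin _)
    have hXl : 1 ≤ X / l := Nat.div_pos hl.2 (by omega)
    have h4 := h (X / l) hXl
    have h5 : ((X / l : ℕ) : ℝ) ≤ (X : ℝ) / l := Nat.cast_div_le
    have h6 : (((X / l : ℕ) : ℝ)) ^ (1 + ε) ≤ ((X : ℝ) / l) ^ (1 + ε) :=
      Real.rpow_le_rpow (Nat.cast_nonneg _) h5 (by linarith)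
    have h7 : ((X : ℝ) / l) ^ (1 + ε) ≤ (X : ℝ) ^ (1 + ε) * ((l : ℝ)⁻¹) := by
      rw [Real.div_rpow hX0.le hl0.le, div_eq_mul_inv]
      apply mul_le_mul_of_nonneg_left _ (by positivity)
      apply inv_anti₀ hl0
      calc (l : ℝ) = (l : ℝ) ^ (1 : ℝ) := (Real.rpow_one _).symm
        _ ≤ (l : ℝ) ^ (1 + ε) := Real.rpow_le_rpow_of_exponent_le hl1 (by linarith)
    calc ((((fun P : ℤ × ℤ => ((l : ℤ) * P.1, (l : ℤ) * P.2)) ''
          {P | P ∈ Pairs (X / l) ∧ ¬ Q P}).ncard : ℕ) : ℝ) ≤ ({P | P ∈ Pairs (X / l) ∧ ¬ Q P}.ncard : ℕ) := by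
          exact_mod_cast h3
      _ ≤ C * (((X / l : ℕ) : ℝ)) ^ (1 + ε) := h4
      _ ≤ C * ((X : ℝ) ^ (1 + ε) * ((l : ℝ)⁻¹)) := mul_le_mul_of_nonneg_left (h6.trans h7) hC
      _ = _ := by ring
  have h3 : ∑ l ∈ Icc 1 X, ((l : ℝ)⁻¹) ≤ 1 + Real.log X := by
    have h4 := harmonic_le_one_add_log X
    rw [harmonic_eq_sum_Icc] at h4
    push_cast at h4
    exact h4
  have h4 : 1 + Real.log X ≤ (1 + 1 / ε) * (X : ℝ) ^ ε := by
    have h5 : Real.log X ≤ (X : ℝ) ^ ε / ε := Real.log_le_rpow_div hX0.le hε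
    have h6 : (1 : ℝ) ≤ (X : ℝ) ^ ε := Real.one_le_rpow hX1 hε.le
    have h7 : (1 + 1 / ε) * (X : ℝ) ^ ε = (X : ℝ) ^ ε + (X : ℝ) ^ ε / ε := by ring
    rw [h7]
    linarith
  calc ({P : ℤ × ℤ | P ≠ 0 ∧ |P.1| ≤ (X : ℤ) ∧ |P.2| ≤ (X : ℤ) ∧ ¬ Q P}.ncard : ℝ)
      ≤ ((∑ l ∈ Icc 1 X, ((fun P : ℤ × ℤ => ((l : ℤ) * P.1, (l : ℤ) * P.2)) ''
          {P | P ∈ Pairs (X / l) ∧ ¬ Q P}).ncard : ℕ) : ℝ) := by exact_mod_cast h1
    _ ≤ ∑ l ∈ Icc 1 X, C * (X : ℝ) ^ (1 + ε) * ((l : ℝ)⁻¹) := by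
        rw [Nat.cast_sum]
        exact sum_le_sum h2
    _ = C * (X : ℝ) ^ (1 + ε) * ∑ l ∈ Icc 1 X, ((l : ℝ)⁻¹) := (mul_sum _ _ _).symm
    _ ≤ C * (X : ℝ) ^ (1 + ε) * ((1 + 1 / ε) * (X : ℝ) ^ ε) :=
        mul_le_mul_of_nonneg_left (h3.trans h4) (by positivity)
    _ = C * (1 + 1 / ε) * ((X : ℝ) ^ (1 + ε) * (X : ℝ) ^ ε) := by ring
    _ = _ := by
        rw [← Real.rpow_add hX0]
        congr 2
        ring

/-- **The strong Lang-Silverman alternative near the values of compositions of multiplicative functions.** (1) For all `N`,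
`d`, `g`, `κ` and `θ < 1` there are `c₁ > 0`, `c₂` such that for every rational function `J = A / D` of degree `N`, every
composition `F` of functions of `LM`, all `α > 0` and `U`, all large `X` and all `m ≤ X` but `X / (log X) ^ U`, the alternative
holds at ALL integers `t ≠ 0` with `| |t| - α F(m) | ≤ F(m) ^ θ`. (2) For `θ < 1 / 2`, the same for all
`(m_0, m_1) ∈ [1, X] ^ 2` but `X ^ 2 / (log X) ^ U` and ALL rational arguments `(s_0 : s_1)` with
`| |s_i| - F_i(m_i) | ≤ F_i(m_i) ^ θ`. (3) Euler's function and the sum of the divisors belong to `LM`. -/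
theorem result (N d g : ℕ) (κ θ : ℝ) (hg : 0 < g) (hκ : 0 ≤ κ) (hθ : 0 ≤ θ) :
    (θ < 1 → ∃ (c₁ : ℝ) (c₂ : ℕ), 0 < c₁ ∧ ∀ A D : ℤ[X], IsFunction N A D → ∀ F : ℕ → ℕ, Comp F →
      ∀ α : ℝ, 0 < α → ∀ U : ℕ, ∃ X₀ : ℕ, ∀ X : ℕ, X₀ ≤ X →
        ({m : ℕ | 1 ≤ m ∧ m ≤ X ∧ ¬ ∀ t : ℤ, t ≠ 0 → |(|t| : ℝ) - α * F m| ≤ (F m : ℝ) ^ θ →
          HoldsInt c₁ c₂ d g κ A D t}.ncard : ℝ) ≤ X / Real.log X ^ U) ∧
    (θ < 1 / 2 → ∃ (c₁ : ℝ) (c₂ : ℕ), 0 < c₁ ∧ ∀ A D : ℤ[X], IsFunction N A D →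
      ∀ F : Fin 2 → ℕ → ℕ, (∀ i, Comp (F i)) → ∀ U : ℕ, ∃ X₀ : ℕ, ∀ X : ℕ, X₀ ≤ X →
        ({m : Fin 2 → ℕ | (∀ i, 1 ≤ m i ∧ m i ≤ X) ∧ ¬ ∀ s : Fin 2 → ℤ, s ≠ 0 →
          (∀ i, |(|s i| : ℝ) - F i (m i)| ≤ (F i (m i) : ℝ) ^ θ) →
          HoldsRat c₁ c₂ d g κ N A D (s 0, s 1)}.ncard : ℝ) ≤ (X : ℝ) ^ 2 / Real.log X ^ U) ∧
    LM Nat.totient ∧ LM (fun m => ∑ d ∈ m.divisors, d) := by
  classical
  refine ⟨fun hθ1 => ?_, fun hθ2 => ?_, lm_totient, lm_sigma⟩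
  · obtain ⟨ε, hε⟩ : ∃ ε : ℝ, ε = (1 - θ) / 2 := ⟨_, rfl⟩
    have hε0 : 0 < ε := by rw [hε]; linarith
    obtain ⟨c₁, c₂, hc₁, h⟩ := EveryOneParameterFamily.result.1 N d g κ ε hg hκ hε0
    refine ⟨c₁, c₂, hc₁, fun A D hR F hF α hα U => ?_⟩
    obtain ⟨-, -, C, hC⟩ := h A D hR
    obtain ⟨X₀, hX₀⟩ := ckeep_int (av_comp hF) (s := ε) (κ := θ) (α := α) hε0.le hθ (by rw [hε]; linarith) hα U
      (B := {t : ℤ | ¬ HoldsInt c₁ c₂ d g κ A D t}) (fun δ hδ => ⟨C, fun X hX => by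
        have hX1 : (1 : ℝ) ≤ X := by exact_mod_cast hX
        have hC0 : 0 ≤ C := by
          have := hC 1 le_rfl
          simp only [Nat.cast_one, Real.one_rpow, mul_one] at this
          exact le_trans (Nat.cast_nonneg _) this
        have hfin : {t : ℤ | |t| ≤ (X : ℤ) ∧ ¬ HoldsInt c₁ c₂ d g κ A D t}.Finite := by
          apply (Set.finite_Icc (-(X : ℤ)) X).subset
          intro b hb
          exact abs_le.1 hb.1
        have h2 : {b : ℤ | b ∈ {t : ℤ | ¬ HoldsInt c₁ c₂ d g κ A D t} ∧ b ≠ 0 ∧ |b| ≤ (X : ℤ)} ⊆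
            {t : ℤ | |t| ≤ (X : ℤ) ∧ ¬ HoldsInt c₁ c₂ d g κ A D t} := by
          rintro b ⟨h1, -, h2⟩
          exact ⟨h2, h1⟩
        have h3 : (({b : ℤ | b ∈ {t : ℤ | ¬ HoldsInt c₁ c₂ d g κ A D t} ∧ b ≠ 0 ∧ |b| ≤ (X : ℤ)}.ncard : ℕ) : ℝ) ≤
            ({t : ℤ | |t| ≤ (X : ℤ) ∧ ¬ HoldsInt c₁ c₂ d g κ A D t}.ncard : ℕ) := by
          exact_mod_cast Set.ncard_le_ncard h2 hfin
        refine h3.trans ((hC X hX).trans ?_)
        apply mul_le_mul_of_nonneg_left _ hC0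
        exact Real.rpow_le_rpow_of_exponent_le hX1 (by linarith)⟩)
    refine ⟨X₀, fun X hX => le_trans (le_of_eq ?_) (hX₀ X hX)⟩
    congr 2
    ext m
    constructor
    · rintro ⟨a1, a2, a3⟩
      push Not at a3
      obtain ⟨t, a4, a5, a6⟩ := a3
      exact ⟨a1, a2, t, a6, a4, a5⟩
    · rintro ⟨a1, a2, t, a6, a4, a5⟩
      exact ⟨a1, a2, fun a7 => a6 (a7 t a4 a5)⟩
  · obtain ⟨ε, hε⟩ : ∃ ε : ℝ, ε = (1 - 2 * θ) / 4 := ⟨_, rfl⟩
    have hε0 : 0 < ε := by rw [hε]; linarith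
    obtain ⟨c₁, c₂, hc₁, h⟩ := EveryOneParameterFamily.result.1 N d g κ ε hg hκ hε0
    refine ⟨c₁, c₂, hc₁, fun A D hR F hF U => ?_⟩
    obtain ⟨⟨C, hC⟩, -, -⟩ := h A D hR
    have hC0 : 0 ≤ C := by
      have := hC 1 le_rfl
      simp only [Nat.cast_one, Real.one_rpow, mul_one] at this
      exact le_trans (Nat.cast_nonneg _) this
    have hpairs := count_pairs (fun P => HoldsRat c₁ c₂ d g κ N A D P) (fun l s t hl h => holdsRat_mul hl h) hC0 hε0 hC
    obtain ⟨X₀, hX₀⟩ := ckeep_near (k := 2) (by norm_num) (fun i => av_comp (hF i)) (ρ := 1 + 2 * ε) (θ := θ)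
      hθ (by linarith) (by push_cast; rw [hε]; linarith) (C * (1 + 1 / ε)) U
    refine ⟨X₀, fun X hX => le_trans (le_of_eq ?_) (hX₀ {w : Fin 2 → ℕ | ∃ s : Fin 2 → ℤ, s ≠ 0 ∧
      (∀ i, |s i| = w i) ∧ ¬ HoldsRat c₁ c₂ d g κ N A D (s 0, s 1)} (fun B hB => ?_) X hX)⟩
    · congr 2
      ext m
      constructor
      · rintro ⟨a1, a2⟩
        push Not at a2
        obtain ⟨s, a4, a5, a6⟩ := a2
        refine ⟨a1, fun i => (s i).natAbs, ⟨s, a4, fun i => by rw [Int.abs_eq_natAbs], a6⟩, fun i => ?_⟩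
        have h1 : (((s i).natAbs : ℕ) : ℝ) = |(s i : ℝ)| := by
          rw [Nat.cast_natAbs, Int.cast_abs]
        rw [h1]
        exact a5 i
      · rintro ⟨a1, w, ⟨s, a4, a7, a6⟩, a5⟩
        refine ⟨a1, fun a8 => a6 (a8 s a4 fun i => ?_)⟩
        have h1 : |(s i : ℝ)| = (w i : ℝ) := by
          have := a7 i
          rw [← Int.cast_abs, this]
          push_cast
          rfl
        rw [h1]
        exact a5 i
    · refine le_trans ?_ (hpairs B hB)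
      have hfin : {P : ℤ × ℤ | P ≠ 0 ∧ |P.1| ≤ (B : ℤ) ∧ |P.2| ≤ (B : ℤ) ∧ ¬ HoldsRat c₁ c₂ d g κ N A D P}.Finite := by
        refine ((Set.finite_Icc (-(B : ℤ)) B).prod (Set.finite_Icc (-(B : ℤ)) B)).subset ?_
        rintro P ⟨-, h1, h2, -⟩
        exact ⟨abs_le.1 h1, abs_le.1 h2⟩
      choose! σ hσ using fun (w : Fin 2 → ℕ) (hw : w ∈ {w : Fin 2 → ℕ | ∃ s : Fin 2 → ℤ, s ≠ 0 ∧
        (∀ i, |s i| = w i) ∧ ¬ HoldsRat c₁ c₂ d g κ N A D (s 0, s 1)}) => hw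
      have h1 := Set.ncard_le_ncard_of_injOn (s := {w : Fin 2 → ℕ | w ∈ {w : Fin 2 → ℕ | ∃ s : Fin 2 → ℤ, s ≠ 0 ∧
        (∀ i, |s i| = w i) ∧ ¬ HoldsRat c₁ c₂ d g κ N A D (s 0, s 1)} ∧ ∀ i, w i ≤ B})
        (t := {P : ℤ × ℤ | P ≠ 0 ∧ |P.1| ≤ (B : ℤ) ∧ |P.2| ≤ (B : ℤ) ∧ ¬ HoldsRat c₁ c₂ d g κ N A D P})
        (fun w => (σ w 0, σ w 1)) (by
          rintro w ⟨hw, hwB⟩
          obtain ⟨b1, b2, b3⟩ := hσ w hw
          refine ⟨?_, ?_, ?_, b3⟩
          · intro h0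
            apply b1
            have h01 : σ w 0 = 0 := congrArg Prod.fst h0
            have h02 : σ w 1 = 0 := congrArg Prod.snd h0
            funext i
            fin_cases i
            · exact h01
            · exact h02
          · show |σ w 0| ≤ (B : ℤ)
            rw [b2 0]
            exact_mod_cast hwB 0
          · show |σ w 1| ≤ (B : ℤ)
            rw [b2 1]
            exact_mod_cast hwB 1) (by
          rintro w ⟨hw, -⟩ w' ⟨hw', -⟩ h0
          have h01 : σ w 0 = σ w' 0 := congrArg Prod.fst h0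
          have h02 : σ w 1 = σ w' 1 := congrArg Prod.snd h0
          obtain ⟨-, b2, -⟩ := hσ w hw
          obtain ⟨-, b2', -⟩ := hσ w' hw'
          funext i
          fin_cases i
          · have e1 := b2 0
            rw [h01, b2' 0] at e1
            exact_mod_cast e1.symm
          · have e1 := b2 1
            rw [h02, b2' 1] at e1
            exact_mod_cast e1.symm) hfin
      exact_mod_cast h1

end Pool.Agent.Results.MP_f5471b_nt.CompositionArguments
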