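import Mathlib
import Pool.Agent.D0H55.ON.PosK
import Pool.Agent.Results.MP_f5471b_nt.AllFieldsFaltings

/-!
# The Lang-Silverman alternative for three quarters of the quadratic twists of every elliptic curve

Let `E : y² = x³ + a x + b` be an elliptic curve over a number field `K`.  We consider the powers of
`E` with all polarizations and the alternative (`Alternative N c`): a point `P` over `K` satisfies
`n P = 0` for some positive `n ≤ N`, or its absolute canonical height is at least
`c max (h_F(E / K), 1)`, `h_F` the RELATIVE Faltings height, and at least `c (1 + h(j))`.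

Let `p` be the part of the height of `j` from its poles outside `6`, and `q` the part from those of
them (`NonSplit`) at which the reduction of `E` is not split multiplicative.

1. For every `η > 0` and every number field `K` there are `N` and `c > 0` such that the alternative
   holds for ALL elliptic curves over `K` with `q ≥ η p`.  If the height of `j` is large, `N` and `c`
   depend only on `η` and the degree of `K`.
2. For every number field `K` there are `N` and `c > 0` such that for EVERY elliptic curve `E` over `K`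
   and every set `T` of nonzero elements, which lie in different square classes of `K_v` at all poles
   `v` of `j` outside `6` (`Separated`), the alternative holds for the quadratic twists `E^d`,
   `d ∈ T`, with at most ONE exception.  There are always `e`, `f` such that for every `d` the set of
   `d`, `d e`, `d f`, `d e f` is of this kind: the alternative holds for at least three of these four
   twists.  If the height of `j` is large, `N` and `c` depend only on the degree of `K`.
3. Uniformity over infinite towers.  There are absolute constants `c₀, B > 0`: suppose that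
   `0 ≤ η < 1/2`, that the poles of odd order outside `6` at which `E` has no split multiplicative
   reduction (`Aniso`) contribute at least `(1 - η) h(j)` to the height of `j`, and that the absolute
   height of `j` is at least `B / (1 - 2 η)` (`Large`).  Then for ALL number fields `L ⊇ K`, of any
   degree, whose ramification indices and residue degrees over these primes are odd (`OddOver`), and
   such that `E(L)` has no point of order two, the alternative holds over `L` with `N = 1` and
   `c = c₀ (1 - 2 η)`.  If `L / K` is Galois it is enough that `E(K)` has no point of order two, and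
   all Galois extensions of odd degree qualify.  For all but at most `(C X ^ (2 - η / 2 + ε)) ^ n` of
   the `j ∈ K` of height at most `X`, `n = [K : ℚ]`, and all curves of invariant `j`, the conditions
   hold for all quadratic twists by the `d` in a full residue class modulo an ideal.

The Szpiro ratios of all these curves are unbounded.  Known are the curves with bounded Szpiro ratio
(Hindry, Silverman; truncated in the starting file `StrongFormsSzpiroRatio`), with nearly integral `j`
(starting files), and the twists of one curve (Silverman), with constants depending on the curve.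

Proof.  At the places `NonSplit` one duplication leads to the identity component: near the node the
curve is `κ s² ≈ -(9/2) u² + δ`, where `-2 κ` is not a square in `K_v`, so that `|u|² ≤ |δ|` for all
points which reduce to the node.  The local pairing of two points in the identity component is
`(1/6) log |j|`; the energy inequality of `Y725/LS/EI` for the points `2 i P`, `i ≤ 4 ^ k`, bounds the
loss at all the other places by `O (k / 4 ^ k)` times the height of `j`.  Two twists by elements of `T`
cannot both have split multiplicative reduction at `v`.  In 3 the duplication has no loss at the places above `Aniso`, and at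
the other places at most `(1/3) log |j|_w`, as in `Y733/LS`.
-/

set_option autoImplicit false
set_option linter.unusedSectionVars false

open NumberField IsDedekindDomain Pool.Agent.TH942 Pool.Agent.TH910.LS
open Pool.Agent.Results.MP_f5471b_nt.AllFieldsFaltings (IsPeriod faltings jInv Inv)

namespace Pool.Agent.Results.MP_f5471b_nt.HalfOfAllTwists

section Defs

/-- `x` has odd valuation at `v`; `FinitePlace.mk v` is the normalised absolute value. -/
def OddVal {K : Type} [Field K] [NumberField K] (v : HeightOneSpectrum (𝓞 K)) (x : K) : Prop :=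
  ∀ z : K, FinitePlace.mk v z ^ 2 ≠ FinitePlace.mk v x

/-- `x` is not a square in the completion at `v` (if `v` does not divide `2`). -/
def NoSquare {K : Type} [Field K] [NumberField K] (v : HeightOneSpectrum (𝓞 K)) (x : K) : Prop :=
  ∀ z : K, FinitePlace.mk v x ≤ FinitePlace.mk v (z ^ 2 - x)

/-- `v` does not divide `6` and is a pole of `j`. -/
def PoleAt {K : Type} [Field K] [NumberField K] (a b : K) (v : HeightOneSpectrum (𝓞 K)) : Prop :=
  FinitePlace.mk v (6 : K) = 1 ∧ 1 < FinitePlace.mk v (jInv a b)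

/-- `v` does not divide `6`, `j` has a pole at `v`, and `y² = x³ + a x + b` does not have split
multiplicative reduction at `v` (`-2 a b` is not a square in `K_v`). -/
def NonSplit {K : Type} [Field K] [NumberField K] (a b : K) (v : HeightOneSpectrum (𝓞 K)) :
    Prop :=
  PoleAt a b v ∧ NoSquare v (-(2 * (a * b)))

/-- the places `NonSplit` at which the pole of `j` has odd order -/
def Aniso {K : Type} [Field K] [NumberField K] (a b : K) (v : HeightOneSpectrum (𝓞 K)) : Prop :=
  PoleAt a b v ∧ OddVal v (jInv a b) ∧ NoSquare v (-(2 * (a * b)))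

open Classical in
/-- the contribution of the primes with the property `P` to the (relative) height of `j` -/
noncomputable def part {K : Type} [Field K] [NumberField K] (P : HeightOneSpectrum (𝓞 K) → Prop)
    (j : K) : ℝ :=
  ∑ᶠ v : HeightOneSpectrum (𝓞 K), if P v then Real.log (FinitePlace.mk v j) else 0

open Classical in
/-- The alternative with the constants `N`, `c` for all powers of `E : y² = x³ + a x + b` over `L`
with all polarizations `M`: for each point `P` of `E ^ g` over `L` there is a positive `n ≤ N` with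
`n P = 0`, or the absolute canonical height of `P` is at least `c max (h_F(E / L), 1)` and at least
`c (1 + h(j))`. -/
def Alternative {L : Type} [Field L] [NumberField L] (N : ℕ) (c : ℝ) (a b : L) : Prop :=
  ∀ (g : ℕ) (M : Matrix (Fin g) (Fin g) ℤ), (M.map (Int.cast : ℤ → ℝ)).PosDef →
    ∀ P : Fin g → SPt a b, (∃ n : ℕ, 0 < n ∧ n ≤ N ∧ n • P = 0) ∨
      (∀ τ : InfinitePlace L → UpperHalfPlane, IsPeriod (jInv a b) τ →
        c * max (faltings a b τ) 1 ≤ chatM M P / Module.finrank ℚ L) ∧
      c * (1 + Height.logHeight₁ (jInv a b) / Module.finrank ℚ L) ≤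
        chatM M P / Module.finrank ℚ L

/-- The elements of `T` are not zero, and for distinct `d`, `d'` in `T` the product `d d'` is not a
square in `K_v` for all poles `v` of `j` outside `6`. -/
def Separated {K : Type} [Field K] [NumberField K] (a b : K) (T : Set K) : Prop :=
  (∀ d ∈ T, d ≠ 0) ∧ ∀ d ∈ T, ∀ d' ∈ T, d ≠ d' → ∀ v : HeightOneSpectrum (𝓞 K), PoleAt a b v →
    NoSquare v (d * d')

/-- The curve is nonsingular, the primes `Aniso` contribute at least `(1 - η) h(j)` to the height of
`j`, and the absolute height of `j` is at least `B / (1 - 2 η)`. -/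
def Large {K : Type} [Field K] [NumberField K] (η B : ℝ) (a b : K) : Prop :=
  4 * a ^ 3 + 27 * b ^ 2 ≠ 0 ∧
    (1 - η) * Height.logHeight₁ (jInv a b) ≤ part (Aniso a b) (jInv a b) ∧
    Module.finrank ℚ K * (B / (1 - 2 * η)) ≤ Height.logHeight₁ (jInv a b)

/-- The ramification indices and the residue degrees of `L` over these primes are odd. -/
def OddOver {K : Type} [Field K] [NumberField K] (a b : K) (L : Type) [Field L] [NumberField L]
    [Algebra K L] : Prop :=
  ∀ w : HeightOneSpectrum (𝓞 L), Aniso a b (w.under (𝓞 K)) →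
    Odd (w.asIdeal.ramificationIdx (𝓞 K)) ∧ Odd (w.asIdeal.inertiaDeg (𝓞 K))

/-- the curve `y² = x³ + a x + b` has no point of order two over `F` -/
def NoTwo {F : Type} [Field F] (a b : F) : Prop := ∀ x : F, x ^ 3 + a * x + b ≠ 0

/-- For all curves of invariant `j` the conditions hold for all quadratic twists by the `d` in a full
residue class modulo a nonzero ideal. -/
def Abundant {K : Type} [Field K] [NumberField K] (η B : ℝ) (j : K) : Prop :=
  ∀ a b : K, 4 * a ^ 3 + 27 * b ^ 2 ≠ 0 → jInv a b = j →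
    ∃ (𝔪 : Ideal (𝓞 K)) (d₀ : 𝓞 K), 𝔪 ≠ ⊥ ∧ ∀ d : 𝓞 K, d - d₀ ∈ 𝔪 → (d : K) ≠ 0 ∧
      Large η B (a * (d : K) ^ 2) (b * (d : K) ^ 3) ∧ NoTwo (a * (d : K) ^ 2) (b * (d : K) ^ 3)

end Defs

open Pool.Agent.Y733.UD Pool.Agent.Y733.LS Pool.Agent.W223.AK Pool.Agent.H691R3
open Pool.Agent.D0H55.ON

section Aux

variable {K : Type} [Field K] [NumberField K]

theorem two_three {v : Pr K} (h : fv v (6 : K) = 1) : fv v (2 : K) = 1 ∧ fv v (3 : K) = 1 := by
  have e2 : fv v (2 : K) ≤ 1 := (fv_Na v).ofNat 2
  have e3 : fv v (3 : K) ≤ 1 := (fv_Na v).ofNat 3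
  have e6 : fv v (2 : K) * fv v (3 : K) = 1 := by
    rw [← map_mul, ← h]
    norm_num
  have p2 : 0 < fv v (2 : K) := (fv v).pos (by norm_num)
  have p3 : 0 < fv v (3 : K) := (fv v).pos (by norm_num)
  have f2 : fv v (2 : K) = 1 := by
    apply le_antisymm e2
    nlinarith
  refine ⟨f2, ?_⟩
  rw [f2, one_mul] at e6
  exact e6

theorem pole_iff {a b : K} (hD : dl a b ≠ 0) (v : Pr K) : PoleAt a b v ↔ Pole a b v := by
  constructor
  · rintro ⟨h6, hj⟩
    change fv v (6 : K) = 1 at h6
    change 1 < fv v (jj a b) at hj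
    obtain ⟨h2, h3⟩ := two_three h6
    exact pole_of hD h2 h3 hj
  · intro h
    refine ⟨?_, (h.jj_eq hD).2⟩
    change fv v (6 : K) = 1
    have : (6 : K) = 2 * 3 := by norm_num
    rw [this, map_mul, h.1, h.2.1, one_mul]

theorem odd_iff {a b : K} (hD : dl a b ≠ 0) {v : Pr K} (h : Pole a b v) :
    OddVal v (jInv a b) ↔ ∀ z : K, fv v z ^ 2 ≠ fv v (dl a b) := by
  have hjj := (h.jj_eq hD).1
  obtain ⟨ha, hb⟩ := h.ne
  have hb2 : 0 < fv v b ^ 2 := pow_pos ((fv v).pos hb) 2
  have hd : 0 < fv v (dl a b) := (fv v).pos hD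
  constructor
  · intro hpar z hz
    have hz0 : z ≠ 0 := by
      rintro rfl
      rw [map_zero, zero_pow two_ne_zero] at hz
      linarith
    apply hpar (b / z)
    change fv v (b / z) ^ 2 = fv v (jj a b)
    rw [map_div₀, div_pow, hz, hjj]
  · intro f3 z hz
    change fv v z ^ 2 = fv v (jj a b) at hz
    have hj1 := (h.jj_eq hD).2
    have hz0 : z ≠ 0 := by
      rintro rfl
      rw [map_zero, zero_pow two_ne_zero] at hz
      linarith
    apply f3 (b / z)
    rw [map_div₀, div_pow, hz, hjj, div_div_eq_mul_div, mul_div_cancel_left₀ _ hb2.ne']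

theorem ns_iff {a b : K} (v : Pr K) : NoSquare v (-(2 * (a * b))) ↔
    ∀ z : K, fv v (2 * (a * b)) ≤ fv v (z ^ 2 + 2 * (a * b)) := by
  unfold NoSquare
  refine forall_congr' fun z => ?_
  rw [sub_neg_eq_add]
  change fv v (-(2 * (a * b))) ≤ fv v (z ^ 2 + 2 * (a * b)) ↔ _
  rw [map_neg_eq_map]

theorem aniso_iff {a b : K} (hD : dl a b ≠ 0) (v : Pr K) : Aniso a b v ↔ On a b v := by
  constructor
  · rintro ⟨h1, h2, h3⟩
    have hp := (pole_iff hD v).1 h1
    exact ⟨hp.1, hp.2.1, hp.2.2.1, hp.2.2.2, (odd_iff hD hp).1 h2, (ns_iff v).1 h3⟩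
  · rintro ⟨g1, g2, g3, g4, g5, g6⟩
    have hp : Pole a b v := ⟨g1, g2, g3, g4⟩
    exact ⟨(pole_iff hD v).2 hp, (odd_iff hD hp).2 g5, (ns_iff v).2 g6⟩

theorem fav_iff {a b : K} (hD : dl a b ≠ 0) (v : Pr K) : NonSplit a b v ↔ Bn a b v :=
  and_congr (pole_iff hD v) (ns_iff v)

theorem weight_eq {a b : K} (hD : dl a b ≠ 0) : part (Aniso a b) (jInv a b) = on a b := by
  classical
  unfold part on
  refine finsum_congr fun v => ?_
  by_cases h : On a b v
  · rw [if_pos h, if_pos ((aniso_iff hD v).2 h)]
    rfl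
  · rw [if_neg h, if_neg (fun h' => h ((aniso_iff hD v).1 h'))]

theorem part_pole {a b : K} (hD : dl a b ≠ 0) : part (PoleAt a b) (jInv a b) = polw a b := by
  classical
  unfold part polw
  refine finsum_congr fun v => ?_
  by_cases h : Pole a b v
  · rw [if_pos h, if_pos ((pole_iff hD v).2 h)]
    rfl
  · rw [if_neg h, if_neg (fun h' => h ((pole_iff hD v).1 h'))]

theorem part_fav {a b : K} (hD : dl a b ≠ 0) : part (NonSplit a b) (jInv a b) = bnw a b := by
  classical
  unfold part bnw
  refine finsum_congr fun v => ?_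
  by_cases h : Bn a b v
  · rw [if_pos h, if_pos ((fav_iff hD v).2 h)]
    rfl
  · rw [if_neg h, if_neg (fun h' => h ((fav_iff hD v).1 h'))]

theorem sep_of {a b : K} (hD : dl a b ≠ 0) {T : Set K} (h : Separated a b T) {d d' : K}
    (hd : d ∈ T) (hd' : d' ∈ T) (hne : d ≠ d') : ∀ v, Pole a b v → Sep (d' / d) v := by
  intro v hv
  have h0 := h.1 d hd
  apply Sep.of_mul_sq h0
  have e : d' / d * d ^ 2 = d * d' := by field_simp
  rw [e]
  exact h.2 d hd d' hd' hne v ((pole_iff hD v).2 hv)

theorem one_exception {T : Set K} {P : K → Prop}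
    (h : ∀ d ∈ T, ∀ d' ∈ T, d ≠ d' → P d ∨ P d') : ∃ t, ∀ d ∈ T, d ≠ t → P d := by
  by_cases hex : ∃ t ∈ T, ¬ P t
  · obtain ⟨t, ht, hnot⟩ := hex
    exact ⟨t, fun d hd hdt => (h t ht d hd (Ne.symm hdt)).resolve_left hnot⟩
  · push Not at hex
    exact ⟨0, fun d hd _ => hex d hd⟩

theorem four_sep {a b e f d : K} (hd : d ≠ 0) (he : e ≠ 0) (hf : f ≠ 0)
    (h1 : ∀ v, PoleAt a b v → NoSquare v e) (h2 : ∀ v, PoleAt a b v → NoSquare v f)
    (h3 : ∀ v, PoleAt a b v → NoSquare v (e * f)) :
    Separated a b {d, d * e, d * f, d * (e * f)} := by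
  refine ⟨?_, ?_⟩
  · intro x hx
    simp only [Set.mem_insert_iff, Set.mem_singleton_iff] at hx
    rcases hx with hx | hx | hx | hx
    · rw [hx]; exact hd
    · rw [hx]; exact mul_ne_zero hd he
    · rw [hx]; exact mul_ne_zero hd hf
    · rw [hx]; exact mul_ne_zero hd (mul_ne_zero he hf)
  · intro x hx y hy hne v hv
    simp only [Set.mem_insert_iff, Set.mem_singleton_iff] at hx hy
    have key : ∀ u s : K, s ≠ 0 → NoSquare v u → NoSquare v (u * s ^ 2) := fun u s hs hu =>
      Sep.mul_sq (x := u) hs hu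
    have q1 := key e d hd (h1 v hv)
    have q2 := key f d hd (h2 v hv)
    have q3 := key (e * f) d hd (h3 v hv)
    have q4 := key f (d * e) (mul_ne_zero hd he) (h2 v hv)
    have q5 := key e (d * f) (mul_ne_zero hd hf) (h1 v hv)
    rcases hx with hx | hx | hx | hx <;> rcases hy with hy | hy | hy | hy <;> first
      | exact absurd (hx.trans hy.symm) hne
      | (rw [hx, hy]; convert q1 using 1; ring1)
      | (rw [hx, hy]; convert q2 using 1; ring1)
      | (rw [hx, hy]; convert q3 using 1; ring1)
      | (rw [hx, hy]; convert q4 using 1; ring1)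
      | (rw [hx, hy]; convert q5 using 1; ring1)

theorem four_card {e f d : K} (hd : d ≠ 0) (he : e ≠ 0) (hf : f ≠ 0) (he1 : e ≠ 1) (hf1 : f ≠ 1)
    (hef1 : e * f ≠ 1) (hef : e ≠ f) : ({d, d * e, d * f, d * (e * f)} : Set K).ncard = 4 := by
  have c1 : d ≠ d * e := fun h => he1 (mul_left_cancel₀ hd (by rw [← h, mul_one]))
  have c2 : d ≠ d * f := fun h => hf1 (mul_left_cancel₀ hd (by rw [← h, mul_one]))
  have c3 : d ≠ d * (e * f) := fun h => hef1 (mul_left_cancel₀ hd (by rw [← h, mul_one]))
  have c4 : d * e ≠ d * f := fun h => hef (mul_left_cancel₀ hd h)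
  have c5 : d * e ≠ d * (e * f) := fun h =>
    hf1 (mul_left_cancel₀ he (by rw [← mul_left_cancel₀ hd h, mul_one]))
  have c6 : d * f ≠ d * (e * f) := fun h =>
    he1 (mul_right_cancel₀ hf (by rw [← mul_left_cancel₀ hd h, one_mul]))
  rw [Set.ncard_insert_of_notMem (by simp only [Set.mem_insert_iff, Set.mem_singleton_iff]; tauto),
    Set.ncard_insert_of_notMem (by simp only [Set.mem_insert_iff, Set.mem_singleton_iff]; tauto),
    Set.ncard_pair c6]

theorem not_ns {v : Pr K} {x : K} (hx : x ≠ 0) : ¬ NoSquare v (x ^ 2) := by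
  intro h
  have h1 : fv v (x ^ 2) ≤ fv v (x ^ 2 - x ^ 2) := h x
  rw [sub_self, map_zero, map_pow] at h1
  have := pow_pos ((fv v).pos hx) 2
  linarith

theorem four_exist {a b : K} (hD : dl a b ≠ 0) : ∃ e f : K, ∀ d : K, d ≠ 0 →
    ({d, d * e, d * f, d * (e * f)} : Set K).ncard = 4 ∧
      Separated a b {d, d * e, d * f, d * (e * f)} := by
  by_cases hex : ∃ v, Pole a b v
  · obtain ⟨e, f, he, hf, h⟩ := exists_four hD hex
    obtain ⟨v, hv⟩ := hex
    obtain ⟨g1, g2, g3⟩ := h v hv
    have n1 : e ≠ 1 := by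
      rintro rfl
      apply not_ns (v := v) (x := (1 : K)) one_ne_zero
      rw [one_pow]
      exact g1
    have n2 : f ≠ 1 := by
      rintro rfl
      apply not_ns (v := v) (x := (1 : K)) one_ne_zero
      rw [one_pow]
      exact g2
    have n3 : e * f ≠ 1 := by
      intro h1
      rw [h1] at g3
      apply not_ns (v := v) (x := (1 : K)) one_ne_zero
      rw [one_pow]
      exact g3
    have n4 : e ≠ f := by
      rintro rfl
      rw [← pow_two] at g3
      exact not_ns he g3
    refine ⟨e, f, fun d hd => ⟨four_card hd he hf n1 n2 n3 n4, four_sep hd he hf ?_ ?_ ?_⟩⟩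
    · exact fun v hv => (h v ((pole_iff hD v).1 hv)).1
    · exact fun v hv => (h v ((pole_iff hD v).1 hv)).2.1
    · exact fun v hv => (h v ((pole_iff hD v).1 hv)).2.2
  · have hno : ∀ v, ¬ PoleAt a b v := fun v hv => hex ⟨v, (pole_iff hD v).1 hv⟩
    refine ⟨2, 3, fun d hd => ⟨four_card hd (by norm_num) (by norm_num) (by norm_num)
      (by norm_num) (by norm_num) (by norm_num), four_sep hd (by norm_num) (by norm_num) ?_ ?_ ?_⟩⟩
    · exact fun v hv => absurd hv (hno v)
    · exact fun v hv => absurd hv (hno v)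
    · exact fun v hv => absurd hv (hno v)

theorem ht_log' (j : K) : Height.logHeight₁ j = ht j := by
  rw [logHeight_eq, ht_eq_Sa]

theorem n_pos' : (0 : ℝ) < Module.finrank ℚ K := by
  exact_mod_cast Module.finrank_pos

theorem large_iff {η : ℝ} {a b : K} : Large η B0 a b ↔ dl a b ≠ 0 ∧
    (1 - η) * ht (jj a b) ≤ on a b ∧ Module.finrank ℚ K * (B0 / (1 - 2 * η)) ≤ ht (jj a b) := by
  unfold Large
  constructor
  · rintro ⟨h1, h2, h3⟩
    have hD : dl a b ≠ 0 := h1
    rw [weight_eq hD, ht_log'] at h2
    rw [ht_log'] at h3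
    exact ⟨hD, h2, h3⟩
  · rintro ⟨h1, h2, h3⟩
    refine ⟨h1, ?_, ?_⟩
    · rw [weight_eq h1, ht_log']
      exact h2
    · rw [ht_log']
      exact h3

theorem noroot_of {a b : K} (ha : a ≠ 0) (hb : b ≠ 0) (hD : dl a b ≠ 0) (h2 : ¬ Two (jj a b)) :
    NoTwo a b := by
  intro x he'
  apply h2
  obtain ⟨f1, f2, f3⟩ := jt_eq hb hD he'
  refine ⟨a / x ^ 2, div_ne_zero ha (pow_ne_zero _ f1), ?_, f2, f3⟩
  intro h1
  apply hb
  have h3 : a = -x ^ 2 := by
    have : a / x ^ 2 = -1 := by linear_combination h1
    rw [div_eq_iff (pow_ne_zero _ f1)] at this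
    linear_combination this
  rw [h3] at he'
  linear_combination he'

theorem abundant_of {η : ℝ} (hη : η < 1 / 2) {j : K} (h0 : j ≠ 0) (h1 : j ≠ 1728)
    (h : Fine η j) : Abundant η B0 j := by
  obtain ⟨h2, hsp, hht⟩ := h
  intro a b hD0 hj
  have hD : dl a b ≠ 0 := hD0
  have hj' : jj a b = j := hj
  have ha : a ≠ 0 := by
    rintro rfl
    apply h0
    rw [← hj']
    unfold jj
    simp
  have hb : b ≠ 0 := by
    rintro rfl
    apply h1
    have h3 := jj_sub a 0 hD
    rw [hj'] at h3
    have h4 : j - 1728 = 0 := by rw [h3]; simp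
    linear_combination h4
  subst hj'
  have hpos : 0 < ht (jj a b) := ht_pos_of hη hht
  have hex : ∃ v, Sp (jj a b) v := by
    by_contra hcon
    push Not at hcon
    have h3 : sp (jj a b) = 0 := by
      unfold sp
      simp [hcon]
    rw [h3] at hsp
    have : 0 < (1 - η) * ht (jj a b) := mul_pos (by linarith) hpos
    linarith
  obtain ⟨𝔪, d₀, h𝔪, hd⟩ := twists ha hb hD hex
  refine ⟨𝔪, d₀, h𝔪, fun d hdd => ?_⟩
  obtain ⟨hd0, hOn⟩ := hd d hdd
  have hDd : dl (a * (d : K) ^ 2) (b * (d : K) ^ 3) ≠ 0 := by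
    rw [dl_twist]
    exact mul_ne_zero hD (pow_ne_zero 6 hd0)
  refine ⟨hd0, large_iff.2 ⟨hDd, ?_, ?_⟩, ?_⟩
  · rw [jj_twist hd0]
    exact hsp.trans (on_twist hd0 hD hOn)
  · rw [jj_twist hd0]
    exact hht
  · exact root_twist hd0 (noroot_of ha hb hD h2)

theorem ncard_le' {S : Set K} {b : ℝ} (h : ∀ E : Finset K, (E : Set K) ⊆ S → (E.card : ℝ) ≤ b) :
    S.Finite ∧ (S.ncard : ℝ) ≤ b := by
  have hfin : S.Finite := by
    by_contra hinf
    obtain ⟨t, ht, hcard⟩ := Set.Infinite.exists_subset_card_eq hinf (⌊b⌋₊ + 1)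
    have h1 := h t ht
    rw [hcard] at h1
    have h2 := Nat.lt_floor_add_one b
    push_cast at h1
    linarith
  refine ⟨hfin, ?_⟩
  have h1 := h hfin.toFinset (by simp)
  rwa [← Set.ncard_eq_toFinset_card S hfin] at h1

end Aux

/-- the number of the exceptional invariants -/
theorem count {η ε : ℝ} (hη0 : 0 < η) (hη : η < 1 / 2) (hε : 0 < ε) : ∃ C : ℝ, 0 < C ∧
    ∀ (K : Type) [Field K] [NumberField K] (X : ℝ), 1 ≤ X →
      {j ∈ Inv K X | ¬ Abundant η B0 j}.Finite ∧
      ({j ∈ Inv K X | ¬ Abundant η B0 j}.ncard : ℝ) ≤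
        (C * X ^ (2 - η / 2 + ε)) ^ Module.finrank ℚ K := by
  obtain ⟨A, hA, h⟩ := exc_count' hη0 hη hε
  refine ⟨Real.exp A, Real.exp_pos _, ?_⟩
  intro K _ _ X hX
  have hX0 : 0 < X := by linarith
  have hn := n_pos' (K := K)
  refine ncard_le' fun E hE => ?_
  refine (h K (Module.finrank ℚ K * Real.log X) E (mul_nonneg hn.le (Real.log_nonneg hX)) ?_).trans
    (le_of_eq ?_)
  · intro j hj
    obtain ⟨⟨h1, h2, h3⟩, h4⟩ := hE (Finset.mem_coe.2 hj)
    rw [ht_log'] at h3
    exact ⟨h1, h2, h3, fun hcon => h4 (abundant_of hη h1 h2 hcon)⟩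
  · rw [Real.rpow_def_of_pos hX0, ← Real.exp_add, ← Real.exp_nat_mul]
    congr 1
    ring

section Two

variable {K L : Type} [Field K] [NumberField K] [Field L] [NumberField L] [Algebra K L]

theorem odd_of_galois [IsGalois K L] (h : Odd (Module.finrank K L)) (w : Pr L) :
    Odd (w.asIdeal.ramificationIdx (𝓞 K)) ∧ Odd (w.asIdeal.inertiaDeg (𝓞 K)) := by
  set v := w.under (𝓞 K) with hv
  have hw : w.asIdeal.LiesOver v.asIdeal := ⟨rfl⟩
  have hmax := v.isMaximal
  have key := Ideal.ncard_primesOver_mul_ramificationIdxIn_mul_inertiaDegIn v.asIdeal (𝓞 L)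
    (L ≃ₐ[K] L)
  rw [Ideal.ramificationIdxIn_eq_ramificationIdx v.asIdeal w.asIdeal (L ≃ₐ[K] L),
    Ideal.inertiaDegIn_eq_inertiaDeg v.asIdeal w.asIdeal (L ≃ₐ[K] L),
    IsGalois.card_aut_eq_finrank] at key
  rw [← key, Nat.odd_mul, Nat.odd_mul] at h
  exact h.2

theorem oddOver_iff {a b : K} (hD : dl a b ≠ 0) : OddOver a b L ↔
    ∀ w : Pr L, On a b (w.under (𝓞 K)) →
      Odd (w.asIdeal.ramificationIdx (𝓞 K)) ∧ Odd (w.asIdeal.inertiaDeg (𝓞 K)) := by
  unfold OddOver
  constructor
  · intro h w hw
    exact h w ((aniso_iff hD _).2 hw)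
  · intro h w hw
    exact h w ((aniso_iff hD _).1 hw)

open Classical in
/-- the lower bound for one curve over `L` -/
theorem low {a b : K} {η : ℝ} (hη0 : 0 ≤ η) (hη : η < 1 / 2) (h : Large η B0 a b)
    (hodd : OddOver a b L) (h2 : NoTwo (algebraMap K L a) (algebraMap K L b))
    {P : SPt (algebraMap K L a) (algebraMap K L b)} (hP : P ≠ 0) :
    (1 - 2 * η) / 100 * (Module.finrank ℚ L + ht (jj (algebraMap K L a) (algebraMap K L b))) ≤
      chat P := by
  obtain ⟨hD, hsp, hht⟩ := large_iff.1 h
  have h1 := tower hD hη0 hη hsp hht h2 ((oddOver_iff hD).1 hodd) ∅ (by simp) hP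
  simpa using h1

open Classical in
theorem no_torsion {a b : K} {η : ℝ} (hη0 : 0 ≤ η) (hη : η < 1 / 2) (h : Large η B0 a b)
    (hodd : OddOver a b L) (h2 : NoTwo (algebraMap K L a) (algebraMap K L b))
    (P : SPt (algebraMap K L a) (algebraMap K L b)) (hP : IsOfFinAddOrder P) : P = 0 := by
  by_contra hne
  obtain ⟨hD, -, -⟩ := large_iff.1 h
  have hDL : dl (algebraMap K L a) (algebraMap K L b) ≠ 0 := by
    rw [dl_map]
    exact (map_ne_zero _).2 hD
  have h1 := low hη0 hη h hodd h2 hne
  rw [tors_zero hDL hP] at h1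
  have h3 := ht_nonneg (jj (algebraMap K L a) (algebraMap K L b))
  have h4 := n_pos' (K := L)
  have h5 : 0 < 1 - 2 * η := by linarith
  have : 0 < (1 - 2 * η) / 100 * (Module.finrank ℚ L +
      ht (jj (algebraMap K L a) (algebraMap K L b))) := by positivity
  linarith

end Two

/-- the alternative over the extensions -/
theorem main : ∃ c₀ : ℝ, 0 < c₀ ∧ ∀ (K L : Type) [Field K] [NumberField K] [Field L]
    [NumberField L] [Algebra K L] (a b : K) (η : ℝ), 0 ≤ η → η < 1 / 2 → Large η B0 a b →
    OddOver a b L → NoTwo (algebraMap K L a) (algebraMap K L b) →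
    Alternative 1 (c₀ * (1 - 2 * η)) (algebraMap K L a) (algebraMap K L b) := by
  classical
  obtain ⟨c₁, hc₁, h⟩ := Pool.Agent.D0H55.ON.strong
  refine ⟨min c₁ (1 / 100), lt_min hc₁ (by norm_num), ?_⟩
  intro K L _ _ _ _ _ a b η hη0 hη hL hodd h2 g M hM P
  by_cases hP : P = 0
  · exact Or.inl ⟨1, one_pos, le_rfl, by rw [hP, smul_zero]⟩
  right
  obtain ⟨hD, hsp, hht⟩ := large_iff.1 hL
  have hDL : dl (algebraMap K L a) (algebraMap K L b) ≠ 0 := by
    rw [dl_map]
    exact (map_ne_zero _).2 hD
  have hn := n_pos' (K := L)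
  have h5 : 0 < 1 - 2 * η := by linarith
  have hlow : (1 - 2 * η) / 100 * (Module.finrank ℚ L +
      ht (jj (algebraMap K L a) (algebraMap K L b))) ≤ chatM M P := by
    apply all_powers hDL _ _ M hM hP
    · have := ht_nonneg (jj (algebraMap K L a) (algebraMap K L b))
      positivity
    · intro Q hQ
      exact low hη0 hη hL hodd h2 hQ
  have hc0 : 0 ≤ min c₁ (1 / 100) := le_min hc₁.le (by norm_num)
  constructor
  · intro τ hτ
    have hτ' : Pool.Agent.TH876.FH.IsPeriod (jj (algebraMap K L a) (algebraMap K L b)) τ := hτ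
    obtain ⟨h6, h7⟩ := h K L a b hD η hη0 hη hsp hht h2 ((oddOver_iff hD).1 hodd) τ hτ' g M hM P hP
    rw [le_div_iff₀ hn]
    have h8 : (0 : ℝ) ≤ chatM M P := le_trans (by positivity) h7
    have h9 : min c₁ (1 / 100) * (1 - 2 * η) ≤ c₁ * (1 - 2 * η) :=
      mul_le_mul_of_nonneg_right (min_le_left _ _) h5.le
    refine le_trans (mul_le_mul_of_nonneg_right (mul_le_mul_of_nonneg_right h9
      (le_trans zero_le_one (le_max_right _ _))) hn.le) ?_
    rcases le_total (faltings (algebraMap K L a) (algebraMap K L b) τ) 1 with h4 | h4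
    · rw [max_eq_right h4, mul_one]
      exact h7
    · rw [max_eq_left h4]
      have e : Pool.Agent.Y733.FF.discSum (sw (algebraMap K L a) (algebraMap K L b)) +
          ∑ w : InfinitePlace L, (w.mult : ℝ) * Pool.Agent.TH876.FH.arch (τ w) =
          12 * Module.finrank ℚ L * faltings (algebraMap K L a) (algebraMap K L b) τ := by
        rw [Pool.Agent.Results.MP_f5471b_nt.AllFieldsFaltings.faltings_eq,
          mul_div_cancel₀ _ (by positivity)]
      rw [e] at h6
      have h10 : 0 ≤ c₁ * (1 - 2 * η) * faltings (algebraMap K L a) (algebraMap K L b) τ *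
          Module.finrank ℚ L :=
        mul_nonneg (mul_nonneg (by positivity) (by linarith)) hn.le
      nlinarith
  · have h11 : Height.logHeight₁ (jInv (algebraMap K L a) (algebraMap K L b)) =
        ht (jj (algebraMap K L a) (algebraMap K L b)) := ht_log' _
    rw [h11, le_div_iff₀ hn]
    refine le_trans ?_ hlow
    have h12 := ht_nonneg (jj (algebraMap K L a) (algebraMap K L b))
    generalize ht (jj (algebraMap K L a) (algebraMap K L b)) = H at *
    have e : min c₁ (1 / 100) * (1 - 2 * η) * (1 + H / Module.finrank ℚ L) * Module.finrank ℚ L =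
        min c₁ (1 / 100) * ((1 - 2 * η) * (Module.finrank ℚ L + H)) := by
      field_simp
    rw [e]
    have e2 : (1 - 2 * η) / 100 * (Module.finrank ℚ L + H) =
        1 / 100 * ((1 - 2 * η) * (Module.finrank ℚ L + H)) := by ring
    rw [e2]
    exact mul_le_mul_of_nonneg_right (min_le_right _ _) (by positivity)

open Classical in
/-- from the library form to the alternative -/
theorem to_alternative : ∃ C : ℝ, 0 < C ∧ ∀ (K : Type) [Field K] [NumberField K] (a b : K)
    (N : ℕ) (c : ℝ), dl a b ≠ 0 → 0 < c → Alt N c a b →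
    Alternative N.factorial (min (c / C) c) a b := by
  obtain ⟨C, hC, h⟩ := alt_strong
  refine ⟨C, hC, ?_⟩
  intro K _ _ a b N c hD hc hA g M hM P
  rcases h K a b N c hD hc hA g M hM P with h1 | ⟨h1, h2⟩
  · exact Or.inl h1
  right
  have hn := n_pos' (K := K)
  have hcC : 0 < c / C := by positivity
  have h12 := ht_nonneg (jj a b)
  constructor
  · intro τ hτ
    have hτ' : Pool.Agent.TH876.FH.IsPeriod (jj a b) τ := hτ
    have h6 := h1 τ hτ'
    rw [le_div_iff₀ hn]
    rcases le_total (faltings a b τ) 1 with h4 | h4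
    · rw [max_eq_right h4, mul_one]
      refine le_trans ?_ h2
      refine mul_le_mul (min_le_right _ _) (by linarith) hn.le hc.le
    · rw [max_eq_left h4]
      have e : Pool.Agent.Y733.FF.discSum (sw a b) +
          ∑ w : InfinitePlace K, (w.mult : ℝ) * Pool.Agent.TH876.FH.arch (τ w) =
          12 * Module.finrank ℚ K * faltings a b τ := by
        rw [Pool.Agent.Results.MP_f5471b_nt.AllFieldsFaltings.faltings_eq,
          mul_div_cancel₀ _ (by positivity)]
      rw [e] at h6
      have h9 : min (c / C) c * faltings a b τ * Module.finrank ℚ K ≤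
          c / C * faltings a b τ * Module.finrank ℚ K :=
        mul_le_mul_of_nonneg_right (mul_le_mul_of_nonneg_right (min_le_left _ _)
          (by linarith)) hn.le
      have h10 : 0 ≤ c / C * faltings a b τ * Module.finrank ℚ K :=
        mul_nonneg (mul_nonneg hcC.le (by linarith)) hn.le
      nlinarith
  · have h11 : Height.logHeight₁ (jInv a b) = ht (jj a b) := ht_log' _
    rw [h11, le_div_iff₀ hn]
    refine le_trans ?_ h2
    have e : min (c / C) c * (1 + ht (jj a b) / Module.finrank ℚ K) * Module.finrank ℚ K =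
        min (c / C) c * (Module.finrank ℚ K + ht (jj a b)) := by
      field_simp
    rw [e]
    exact mul_le_mul_of_nonneg_right (min_le_right _ _) (by positivity)

/-- **Main theorem.**

1. Over every number field the alternative holds, with constants depending on `η > 0` and the field,
   for all curves for which the poles `NonSplit` contribute at least the proportion `η` of the
   poles outside `6`.
2. If the height of `j` is large, the constants depend only on `η` and the degree.
3. Over every number field the alternative holds, with constants depending on the field, for all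
   twists of every curve by the elements of a set `T` which is `Separated`, with at most one exception.
4. If the height of `j` is large, the constants depend only on the degree.
5. There are always `e`, `f` such that all the sets `{d, d e, d f, d e f}` have four elements and are
   `Separated`.
6. There are absolute constants `c₀, B > 0`: if `0 ≤ η < 1/2` and `E : y² = x³ + a x + b` over `K`
   satisfies `Large η B`, then over ALL number fields `L ⊇ K` with `OddOver` and `E(L)[2] = 0` the
   alternative holds with `N = 1` and `c₀ (1 - 2 η)`; if `L / K` is Galois, it is enough that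
   `E(K)[2] = 0`; all finite Galois extensions of odd degree have the property `OddOver`; and these
   curves are abundant: for all but at most `(C X ^ (2 - η / 2 + ε)) ^ [K : ℚ]` of the `j ∈ K` of
   height at most `X`. -/
theorem result :
    (∀ (K : Type) [Field K] [NumberField K] (η : ℝ), 0 < η → ∃ (N : ℕ) (c : ℝ), 0 < c ∧
      ∀ a b : K, 4 * a ^ 3 + 27 * b ^ 2 ≠ 0 →
      η * part (PoleAt a b) (jInv a b) ≤ part (NonSplit a b) (jInv a b) →
      Alternative N c a b) ∧
    (∀ (D : ℕ) (η : ℝ), 0 < η → ∃ (N : ℕ) (c B : ℝ), 0 < c ∧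
      ∀ (K : Type) [Field K] [NumberField K], Module.finrank ℚ K ≤ D →
      ∀ a b : K, 4 * a ^ 3 + 27 * b ^ 2 ≠ 0 → B ≤ Height.logHeight₁ (jInv a b) →
      η * part (PoleAt a b) (jInv a b) ≤ part (NonSplit a b) (jInv a b) →
      Alternative N c a b) ∧
    (∀ (K : Type) [Field K] [NumberField K], ∃ (N : ℕ) (c : ℝ), 0 < c ∧
      ∀ a b : K, 4 * a ^ 3 + 27 * b ^ 2 ≠ 0 → ∀ T : Set K, Separated a b T →
      ∃ t : K, ∀ d ∈ T, d ≠ t → Alternative N c (a * d ^ 2) (b * d ^ 3)) ∧
    (∀ D : ℕ, ∃ (N : ℕ) (c B : ℝ), 0 < c ∧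
      ∀ (K : Type) [Field K] [NumberField K], Module.finrank ℚ K ≤ D →
      ∀ a b : K, 4 * a ^ 3 + 27 * b ^ 2 ≠ 0 → B ≤ Height.logHeight₁ (jInv a b) →
      ∀ T : Set K, Separated a b T →
      ∃ t : K, ∀ d ∈ T, d ≠ t → Alternative N c (a * d ^ 2) (b * d ^ 3)) ∧
    (∀ (K : Type) [Field K] [NumberField K] (a b : K), 4 * a ^ 3 + 27 * b ^ 2 ≠ 0 →
      ∃ e f : K, ∀ d : K, d ≠ 0 → ({d, d * e, d * f, d * (e * f)} : Set K).ncard = 4 ∧
        Separated a b {d, d * e, d * f, d * (e * f)}) ∧
    ∃ c₀ B : ℝ, 0 < c₀ ∧ 0 < B ∧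
    (∀ (K L : Type) [Field K] [NumberField K] [Field L] [NumberField L] [Algebra K L] (a b : K)
      (η : ℝ), 0 ≤ η → η < 1 / 2 → Large η B a b → OddOver a b L →
      NoTwo (algebraMap K L a) (algebraMap K L b) →
      Alternative 1 (c₀ * (1 - 2 * η)) (algebraMap K L a) (algebraMap K L b)) ∧
    (∀ (K L : Type) [Field K] [NumberField K] [Field L] [NumberField L] [Algebra K L]
      [IsGalois K L] (a b : K) (η : ℝ), 0 ≤ η → η < 1 / 2 → Large η B a b → OddOver a b L →
      NoTwo a b → NoTwo (algebraMap K L a) (algebraMap K L b)) ∧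
    (∀ (K L : Type) [Field K] [NumberField K] [Field L] [NumberField L] [Algebra K L]
      [IsGalois K L] (a b : K), Odd (Module.finrank K L) → OddOver a b L) ∧
    (∀ η ε : ℝ, 0 < η → η < 1 / 2 → 0 < ε → ∃ C : ℝ, 0 < C ∧
      ∀ (K : Type) [Field K] [NumberField K] (X : ℝ), 1 ≤ X →
        {j ∈ Inv K X | ¬ Abundant η B j}.Finite ∧
        ({j ∈ Inv K X | ¬ Abundant η B j}.ncard : ℝ) ≤
          (C * X ^ (2 - η / 2 + ε)) ^ Module.finrank ℚ K) := by
  classical
  obtain ⟨C, hC, halt⟩ := to_alternative
  have hcpos : ∀ c : ℝ, 0 < c → 0 < min (c / C) c := fun c hc => lt_min (by positivity) hc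
  refine ⟨?_, ?_, ?_, ?_, ?_, ?_⟩
  · intro K _ _ η hη
    obtain ⟨N, c, hc, h⟩ := alt_all K hη
    refine ⟨N.factorial, min (c / C) c, hcpos c hc, fun a b hD hw => ?_⟩
    have hD' : dl a b ≠ 0 := hD
    rw [part_pole hD', part_fav hD'] at hw
    exact halt K a b N c hD' hc (h a b hD' hw)
  · intro D η hη
    obtain ⟨N, c, B, hc, -, h⟩ := alt_large D hη
    refine ⟨N.factorial, min (c / C) c, B, hcpos c hc, fun K _ _ hK a b hD hB hw => ?_⟩
    have hD' : dl a b ≠ 0 := hD
    rw [part_pole hD', part_fav hD'] at hw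
    rw [ht_log'] at hB
    exact halt K a b N c hD' hc (h K hK a b hD' hw hB)
  · intro K _ _
    obtain ⟨N, c, hc, h⟩ := half K
    refine ⟨N.factorial, min (c / C) c, hcpos c hc, fun a b hD T hT => ?_⟩
    refine one_exception fun d hd d' hd' hne => ?_
    have hD' : dl a b ≠ 0 := hD
    have h0 := hT.1 d hd
    have h0' := hT.1 d' hd'
    have hD1 : dl (a * d ^ 2) (b * d ^ 3) ≠ 0 := by
      rw [dl_twist]; exact mul_ne_zero hD' (pow_ne_zero 6 h0)
    have hD2 : dl (a * d' ^ 2) (b * d' ^ 3) ≠ 0 := by
      rw [dl_twist]; exact mul_ne_zero hD' (pow_ne_zero 6 h0')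
    have e1 : d * (d' / d) = d' := by field_simp
    rcases h a b hD' (d' / d) (div_ne_zero h0' h0) (sep_of hD' hT hd hd' hne) d h0 with h1 | h1
    · exact Or.inl (halt K _ _ N c hD1 hc h1)
    · rw [e1] at h1
      exact Or.inr (halt K _ _ N c hD2 hc h1)
  · intro D
    obtain ⟨N, c, B, hc, h⟩ := half_large D
    refine ⟨N.factorial, min (c / C) c, B, hcpos c hc, fun K _ _ hK a b hD hB T hT => ?_⟩
    refine one_exception fun d hd d' hd' hne => ?_
    have hD' : dl a b ≠ 0 := hD
    have h0 := hT.1 d hd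
    have h0' := hT.1 d' hd'
    have hD1 : dl (a * d ^ 2) (b * d ^ 3) ≠ 0 := by
      rw [dl_twist]; exact mul_ne_zero hD' (pow_ne_zero 6 h0)
    have hD2 : dl (a * d' ^ 2) (b * d' ^ 3) ≠ 0 := by
      rw [dl_twist]; exact mul_ne_zero hD' (pow_ne_zero 6 h0')
    have e1 : d * (d' / d) = d' := by field_simp
    rw [ht_log'] at hB
    rcases h K hK a b hD' hB (d' / d) (div_ne_zero h0' h0) (sep_of hD' hT hd hd' hne) d h0 with
      h1 | h1
    · exact Or.inl (halt K _ _ N c hD1 hc h1)
    · rw [e1] at h1
      exact Or.inr (halt K _ _ N c hD2 hc h1)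
  · intro K _ _ a b hD
    exact four_exist hD
  · obtain ⟨c₀, hc₀, h⟩ := main
    refine ⟨c₀, B0, hc₀, B0_pos, ?_, ?_, ?_, fun η ε h1 h2 h3 => count h1 h2 h3⟩
    · intro K L _ _ _ _ _ a b η hη0 hη hL hodd h2
      exact h K L a b η hη0 hη hL hodd h2
    · intro K L _ _ _ _ _ _ a b η hη0 hη hL hodd h2
      obtain ⟨hD, hsp, hht⟩ := large_iff.1 hL
      exact no_root_gal hD h2 (exists_on hη hsp (ht_pos_of hη hht)) ((oddOver_iff hD).1 hodd)
    · intro K L _ _ _ _ _ _ a b hodd w _
      exact odd_of_galois hodd w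

end Pool.Agent.Results.MP_f5471b_nt.HalfOfAllTwists
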