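import Pool.Agent.D0H63.MP.All
import Pool.Agent.D0H63.MP.Met
import Pool.Agent.D0H63.Moved.AllRationalApproximations
import Pool.Agent.Results.MP_f5471b_nt.EveryOneParameterFamily

/-!
# The strong Lang-Silverman alternative for all rational functions of several variables: nearly all integral vectors, and all
# the rational approximations of almost all points of `ℝ ^ m`

Let `J = A / D` be any non-constant rational function of `n` variables over `ℚ`, of degree at most `N`, and consider the elliptic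
curves of invariant `J (v)`, `v` in `ℤ ^ n`. If `A` and `D` are forms of the same degree, this is the family over the projective
space of dimension `n - 1` given by any rational function; other `A` and `D` give the families over the affine space at integral
points.

Theorem. (1) Among the about `(2 B) ^ n` vectors `v` with `|vᵢ| ≤ B` all but `C B ^ (n - 1 + ε)` have the following property: for all
elliptic curves `E` of invariant `J (v)` over all number fields `K` of degree at most `d`, for all forms `A` over `K` of `E ^ g`, all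
polarizations of `A` and all `P` in `A(K)`, either `P` has order at most `c₂` modulo a proper abelian subvariety of degree at most
`c₂` times that of `A`, or the canonical height of `P` is at least `c₁` times the height of `A`. The constants `c₁ > 0` and `c₂`
depend on `N`, `d`, `g`, `κ`, `ε` only: neither on the function nor on the number of the variables. (For `D = X₁` the vectors with
`v₁ = 1` have integral invariants, about which nothing is known, so that `n - 1` is the natural exponent.)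
(2) Let `Y` be a metric space and `φ` any map from the integral vectors to `Y`. For all points `ξ` of `Y` outside a set of Hausdorff
dimension at most `(n - 1) / τ + δ` the property holds for ALL non-constant rational functions of degree at most `N` and, for every
`C`, for all but finitely many vectors `v` with `dist ξ (φ (v)) ≤ C ‖v‖ ^ (-τ)`, with `c₁` and `c₂` depending on `N`, `d`, `g`, `κ`,
`τ` and `δ` only.
(3) For `Y` and `φ` there is ONE set of dimension at most `(n - 1) / τ` outside which this holds for all `N`, `d`, `g`, `κ`, with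
constants depending on them and on `ξ`.
(4) For `τ > 1` and all `m ≥ 1`, almost all real vectors `ξ` of `ℝ ^ m` are as follows: the property holds for ALL non-constant
rational functions `J` of `m + 1` variables of degree at most `N` at `(q, p₁, …, p_m)` for all but finitely many `q ≥ 1` and `p` with
`|ξᵢ - pᵢ / q| ≤ C q ^ (-τ)` for all `i`. The exponents of Dirichlet, `τ = 1 + 1 / m`, are admissible. The function can be a function of
`p / q`, so that this is a statement about the rational approximations of `ξ` on families with `m` parameters, or of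
the numerators and the denominator separately. The constants do not depend on `ξ`, on `m` or on the function.
(5) More is true for the families of one parameter with at least two poles on the projective line, `J (s : t)` for coprime `s`, `t`: in (2)
the exceptional set has dimension at most `δ`, for every `τ > 0`.
(6) For these families there is ONE set of real (`p`-adic, ...) numbers of Hausdorff dimension zero such that for all `ξ` outside it, all
`N`, `d`, `g`, `κ` and `τ > 0` there are `c₁` and `c₂` such that the property holds for ALL such `J` of degree `N` at all but finitely many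
`s / t` with `|ξ - s / t| ≤ C max (|s|, |t|) ^ (-τ)`.

The definitions are those of the starting file `EveryOneParameterFamily`, where (1) is proved for functions of one variable and for
forms of two variables.
-/

set_option autoImplicit false

namespace Pool.Agent.Results.MP_f5471b_nt.SeveralVariables

open MvPolynomial MeasureTheory NumberField
open Pool.Agent.TH910.LS Pool.Agent.Y725.LS
open EveryOneParameterFamily (HoldsAt)

/-- `A / D` is a non-constant rational function of `n` variables of degree at most `N`, in lowest terms -/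
structure IsFunction (n N : ℕ) (A D : MvPolynomial (Fin n) ℤ) : Prop where
  num : A.totalDegree ≤ N
  den : D.totalDegree ≤ N
  nonconst : A.totalDegree ≠ 0 ∨ D.totalDegree ≠ 0
  coprime : IsRelPrime A D

/-- the denominator is not zero at `v` and the alternative holds at `J (v) = (A / D) (v)` -/
def HoldsVec (c₁ : ℝ) (c₂ d g : ℕ) (κ : ℝ) {n : ℕ} (A D : MvPolynomial (Fin n) ℤ) (v : Fin n → ℤ) : Prop :=
  eval v D ≠ 0 ∧ HoldsAt c₁ c₂ d g κ ((eval v A : ℤ) / (eval v D : ℤ))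

/-- for every `C` the alternative with the constants `c₁`, `c₂` holds at `(A / D) (v)` for all but finitely many vectors `v` with
`dist ξ (φ v) ≤ C ‖v‖ ^ (-τ)`, where `‖v‖ = max |vᵢ|` -/
def HoldsNear {Y : Type} [MetricSpace Y] {n : ℕ} (φ : (Fin n → ℤ) → Y) (c₁ : ℝ) (c₂ d g : ℕ) (κ τ : ℝ)
    (A D : MvPolynomial (Fin n) ℤ) (ξ : Y) : Prop :=
  ∀ C : ℝ, {v : Fin n → ℤ | dist ξ (φ v) ≤ C * ‖v‖ ^ (-τ) ∧ ¬ HoldsVec c₁ c₂ d g κ A D v}.Finite

open EveryOneParameterFamily (HoldsRat poleCount) in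
/-- for every `C` all but finitely many pairs `(s, t)` of coprime integers with `dist ξ (φ (s, t)) ≤ C max (|s|, |t|) ^ (-τ)` satisfy:
`(s : t)` is not a pole of `A / D` and the alternative with the constants `c₁`, `c₂` holds at `(A / D) (s : t)` -/
def HoldsNearPairs {Y : Type} [MetricSpace Y] (φ : ℤ × ℤ → Y) (c₁ : ℝ) (c₂ d g : ℕ) (κ τ : ℝ) (N : ℕ) (A D : Polynomial ℤ)
    (ξ : Y) : Prop :=
  ∀ C : ℝ, {P : ℤ × ℤ | IsCoprime P.1 P.2 ∧ dist ξ (φ P) ≤ C * ((max |P.1| |P.2| : ℤ) : ℝ) ^ (-τ) ∧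
    ¬ HoldsRat c₁ c₂ d g κ N A D P}.Finite

theorem holdsAt_anti {c₁ : ℝ} {c₂ d g : ℕ} {κ κ' : ℝ} (h : κ ≤ κ') {j : ℚ} (H : HoldsAt c₁ c₂ d g κ' j) :
    HoldsAt c₁ c₂ d g κ j := by
  intro K _ _ hK a b hab hle hj L _ _ _ _ _
  refine H K hK a b hab (hle.trans (mul_le_mul_of_nonneg_right h ?_)) hj L
  have := Pool.Agent.Y728.AK.absH_nonneg (jinv (a : K) b)
  linarith

theorem HoldsNear.mono {Y : Type} [MetricSpace Y] {n : ℕ} {φ : (Fin n → ℤ) → Y} {c₁ : ℝ} {c₂ d g : ℕ} {κ κ' τ : ℝ}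
    {A D : MvPolynomial (Fin n) ℤ} {ξ : Y} (hκ : κ ≤ κ') (H : HoldsNear φ c₁ c₂ d g κ' τ A D ξ) :
    HoldsNear φ c₁ c₂ d g κ τ A D ξ := by
  intro C
  refine (H C).subset ?_
  rintro v ⟨h1, h3⟩
  exact ⟨h1, fun h5 => h3 ⟨h5.1, holdsAt_anti hκ h5.2⟩⟩

theorem countable_mv (n : ℕ) : Countable (MvPolynomial (Fin n) ℤ) := by
  rw [← Cardinal.mk_le_aleph0_iff]
  refine (MvPolynomial.cardinalMk_le_max (σ := Fin n) (R := ℤ)).trans ?_
  simp

theorem count (N d g : ℕ) (κ ε : ℝ) (hg : 0 < g) (hκ : 0 ≤ κ) (hε : 0 < ε) :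
    ∃ (c₁ : ℝ) (c₂ : ℕ), 0 < c₁ ∧ ∀ (n : ℕ) (A D : MvPolynomial (Fin n) ℤ), IsFunction n N A D →
      ∃ C : ℝ, 0 < C ∧ ∀ B : ℕ, 1 ≤ B →
        ({v : Fin n → ℤ | (∀ i, |v i| ≤ B) ∧ ¬ HoldsVec c₁ c₂ d g κ A D v}.ncard : ℝ) ≤ C * (B : ℝ) ^ ((n : ℝ) - 1 + ε) := by
  obtain ⟨a₁, ha₁, a₂, h1⟩ :=
    Pool.Agent.N365.LS.strong_enough d g hg κ (4 * (N + 1) / ε) hκ (by positivity)
  obtain ⟨b₁, hb₁, b₂, h2⟩ := Pool.Agent.N365.LS.strong_poly d g hg κ hκ
  have hP1 : ∀ x y : ℤ, Pool.Agent.N365.LS.Enough (4 * (N + 1) / ε) x y →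
      HoldsAt (min a₁ b₁) (max a₂ b₂) d g κ (x / y) := fun x y h =>
    (h1 x y h).mono (min_le_left _ _) (le_max_left _ _)
  have hP2 : ∀ y : ℤ, y ≠ 0 → ∃ X0 : ℝ, 0 ≤ X0 ∧ ∀ x : ℤ, X0 < |(x : ℝ)| →
      HoldsAt (min a₁ b₁) (max a₂ b₂) d g κ (x / y) := by
    intro y hy
    obtain ⟨X0, hX0, h⟩ := h2 y hy
    exact ⟨X0, hX0, fun x hx => (h x hx).mono (min_le_right _ _) (le_max_right _ _)⟩
  refine ⟨min a₁ b₁, max a₂ b₂, lt_min ha₁ hb₁, fun n A D hR => ?_⟩
  obtain ⟨C, hC, hc⟩ := Pool.Agent.D0H63.MP.few hε hP1 hP2 hR.coprime hR.num hR.den hR.nonconst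
  refine ⟨C, hC, fun B hB => ?_⟩
  refine le_trans (le_of_eq ?_) (hc B hB)
  congr 2
  ext v
  simp only [Set.mem_ofPred_eq, Pool.Agent.D0H63.MP.mem_Bx]
  rfl

theorem one (N d g : ℕ) (κ τ δ : ℝ) (hg : 0 < g) (hκ : 0 ≤ κ) (hτ : 0 < τ) (hδ : 0 < δ) :
    ∃ (c₁ : ℝ) (c₂ : ℕ), 0 < c₁ ∧ ∀ (n : ℕ) (Y : Type) [MetricSpace Y] (φ : (Fin n → ℤ) → Y),
      ∃ E : Set Y, dimH E ≤ ENNReal.ofReal (((n : ℝ) - 1) / τ + δ) ∧ ∀ ξ : Y, ξ ∉ E →
        ∀ A D : MvPolynomial (Fin n) ℤ, IsFunction n N A D → HoldsNear φ c₁ c₂ d g κ τ A D ξ := by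
  classical
  obtain ⟨c₁, c₂, hc₁, H⟩ := count N d g κ (δ * τ) hg hκ (by positivity)
  refine ⟨c₁, c₂, hc₁, fun n Y _ φ => ?_⟩
  have hcount1 : Countable (MvPolynomial (Fin n) ℤ) := countable_mv n
  refine ⟨⋃ F : MvPolynomial (Fin n) ℤ × MvPolynomial (Fin n) ℤ, {ξ : Y | IsFunction n N F.1 F.2 ∧
    ¬ HoldsNear φ c₁ c₂ d g κ τ F.1 F.2 ξ}, ?_, fun ξ hξ A D hR => ?_⟩
  · rw [dimH_iUnion]
    refine iSup_le fun F => ?_
    by_cases hF : IsFunction n N F.1 F.2
    · have hn : (1 : ℝ) ≤ n := by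
        have : n ≠ 0 := by
          rintro rfl
          have e : ∀ Q : MvPolynomial (Fin 0) ℤ, Q.totalDegree = 0 := fun Q => by
            rw [totalDegree_eq_zero_iff]
            intro s _ i
            exact i.elim0
          rcases hF.nonconst with h | h
          · exact h (e _)
          · exact h (e _)
        exact_mod_cast Nat.one_le_iff_ne_zero.2 this
      obtain ⟨C, -, hC⟩ := H n F.1 F.2 hF
      have h1 := Pool.Agent.D0H63.MP.vec_metric φ {v : Fin n → ℤ | ¬ HoldsVec c₁ c₂ d g κ F.1 F.2 v}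
        (s := (n : ℝ) - 1 + δ * τ) (τ := τ) (by have := mul_pos hδ hτ; linarith) hτ ⟨C, fun B hB => by
          refine le_trans (le_of_eq ?_) (hC B hB)
          congr 2
          ext v
          simp only [Set.mem_ofPred_eq, Pool.Agent.D0H63.MP.mem_Bx]⟩
      have e2 : ((n : ℝ) - 1 + δ * τ) / τ = ((n : ℝ) - 1) / τ + δ := by field_simp
      rw [e2] at h1
      refine le_trans (dimH_mono ?_) h1
      rintro ξ ⟨-, h3⟩ h4
      exact h3 h4
    · have : {ξ : Y | IsFunction n N F.1 F.2 ∧ ¬ HoldsNear φ c₁ c₂ d g κ τ F.1 F.2 ξ} = ∅ := by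
        rw [Set.eq_empty_iff_forall_notMem]
        rintro ξ ⟨h1, -⟩
        exact hF h1
      rw [this, dimH_empty]
      exact bot_le
  · by_contra hcon
    exact hξ (Set.mem_iUnion.2 ⟨(A, D), hR, hcon⟩)

/-- **Theorem.** (1) For all `N`, `d`, `g`, `κ` and `ε > 0` there are `c₁ > 0` and `c₂` such that for every non-constant rational
function `A / D` of any number `n` of variables, of degree at most `N`, the alternative with these constants holds at all but
`C B ^ (n - 1 + ε)` integral vectors with coordinates of absolute value at most `B`. (2) For all `N`, `d`, `g`, `κ`, `τ > 0` and `δ > 0`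
there are `c₁ > 0` and `c₂` such that for all `n`, every metric space `Y` and every map `φ` from `ℤ ^ n` to `Y`, for all `ξ` in `Y`
outside a set of Hausdorff dimension at most `(n - 1) / τ + δ`, for all non-constant rational functions of `n` variables of degree at
most `N` the alternative with these constants holds at all but finitely many vectors `v` with `dist ξ (φ v) ≤ C ‖v‖ ^ (-τ)`. (3) For
`n`, `Y`, `φ` and `τ > 0` there is one set of dimension at most `(n - 1) / τ` such that for all `ξ` outside it and all `N`, `d`, `g`, `κ`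
there are `c₁ > 0` and `c₂` such that this is true for all non-constant functions of degree at most `N`. (4) For all `N`, `d`, `g`, `κ` and
`τ > 1` there are `c₁ > 0` and `c₂` such that for all `m ≥ 1`, almost all `ξ` in `ℝ ^ m`, all non-constant rational functions of `m + 1`
variables of degree at most `N` and every `C` the alternative holds at `(q, p₁, …, p_m)` for all but finitely many `q ≥ 1`, `p` with
`|ξᵢ - pᵢ / q| ≤ C q ^ (-τ)`. (5) For all `N`, `d`, `g`, `κ`, `τ > 0` and `δ > 0` there are `c₁ > 0` and `c₂` such that for every `Y` and every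
map `φ` from the pairs of integers to `Y`, for all `ξ` in `Y` outside a set of dimension at most `δ` the alternative holds at all but
finitely many coprime pairs near `ξ` for all rational functions of one variable of degree `N` with at least two poles. (6) For every
`Y` and `φ` there is one set `E` of dimension zero such that for all `ξ` outside `E`, all `N`, `d`, `g`, `κ` and `τ > 0` there are
`c₁ > 0` and `c₂` such that this is true for all rational functions of degree `N` with at least two poles. (7) Every `j ≠ 0, 1728` is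
the invariant of a curve with small coefficients, as assumed in `HoldsAt`, with a `κ` depending only on `d`. -/
theorem result :
    (∀ (N d g : ℕ) (κ ε : ℝ), 0 < g → 0 ≤ κ → 0 < ε → ∃ (c₁ : ℝ) (c₂ : ℕ), 0 < c₁ ∧
      ∀ (n : ℕ) (A D : MvPolynomial (Fin n) ℤ), IsFunction n N A D → ∃ C : ℝ, 0 < C ∧ ∀ B : ℕ, 1 ≤ B →
        ({v : Fin n → ℤ | (∀ i, |v i| ≤ B) ∧ ¬ HoldsVec c₁ c₂ d g κ A D v}.ncard : ℝ) ≤ C * (B : ℝ) ^ ((n : ℝ) - 1 + ε)) ∧
    (∀ (N d g : ℕ) (κ τ δ : ℝ), 0 < g → 0 ≤ κ → 0 < τ → 0 < δ → ∃ (c₁ : ℝ) (c₂ : ℕ), 0 < c₁ ∧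
      ∀ (n : ℕ) (Y : Type) [MetricSpace Y] (φ : (Fin n → ℤ) → Y),
      ∃ E : Set Y, dimH E ≤ ENNReal.ofReal (((n : ℝ) - 1) / τ + δ) ∧ ∀ ξ : Y, ξ ∉ E →
        ∀ A D : MvPolynomial (Fin n) ℤ, IsFunction n N A D → HoldsNear φ c₁ c₂ d g κ τ A D ξ) ∧
    (∀ (n : ℕ) (Y : Type) [MetricSpace Y] (φ : (Fin n → ℤ) → Y) (τ : ℝ), 1 ≤ n → 0 < τ →
      ∃ E : Set Y, dimH E ≤ ENNReal.ofReal (((n : ℝ) - 1) / τ) ∧ ∀ ξ : Y, ξ ∉ E →
        ∀ (N d g : ℕ) (κ : ℝ), 0 < g → 0 ≤ κ → ∃ (c₁ : ℝ) (c₂ : ℕ), 0 < c₁ ∧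
          ∀ A D : MvPolynomial (Fin n) ℤ, IsFunction n N A D → HoldsNear φ c₁ c₂ d g κ τ A D ξ) ∧
    (∀ (N d g : ℕ) (κ τ : ℝ), 0 < g → 0 ≤ κ → 1 < τ → ∃ (c₁ : ℝ) (c₂ : ℕ), 0 < c₁ ∧
      ∀ m : ℕ, 1 ≤ m → ∀ᵐ ξ : Fin m → ℝ, ∀ A D : MvPolynomial (Fin (m + 1)) ℤ, IsFunction (m + 1) N A D → ∀ C : ℝ,
        {w : ℕ × (Fin m → ℤ) | 1 ≤ w.1 ∧ (∀ i, |ξ i - (w.2 i : ℝ) / w.1| ≤ C * (w.1 : ℝ) ^ (-τ)) ∧
          ¬ HoldsVec c₁ c₂ d g κ A D (Fin.cons (w.1 : ℤ) w.2)}.Finite) ∧
    (∀ (N d g : ℕ) (κ τ δ : ℝ), 0 < g → 0 ≤ κ → 0 < τ → 0 < δ → ∃ (c₁ : ℝ) (c₂ : ℕ), 0 < c₁ ∧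
      ∀ (Y : Type) [MetricSpace Y] (φ : ℤ × ℤ → Y),
      ∃ E : Set Y, dimH E ≤ ENNReal.ofReal δ ∧ ∀ ξ : Y, ξ ∉ E → ∀ A D : Polynomial ℤ,
        EveryOneParameterFamily.IsFunction N A D → 2 ≤ EveryOneParameterFamily.poleCount N D →
          HoldsNearPairs φ c₁ c₂ d g κ τ N A D ξ) ∧
    (∀ (Y : Type) [MetricSpace Y] (φ : ℤ × ℤ → Y),
      ∃ E : Set Y, dimH E = 0 ∧ ∀ ξ : Y, ξ ∉ E → ∀ (N d g : ℕ) (κ τ : ℝ), 0 < g → 0 ≤ κ → 0 < τ →
      ∃ (c₁ : ℝ) (c₂ : ℕ), 0 < c₁ ∧ ∀ A D : Polynomial ℤ,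
        EveryOneParameterFamily.IsFunction N A D → 2 ≤ EveryOneParameterFamily.poleCount N D →
          HoldsNearPairs φ c₁ c₂ d g κ τ N A D ξ) ∧
    (∀ d : ℕ, ∃ κ : ℝ, 0 ≤ κ ∧ ∀ (K : Type) [Field K] [NumberField K],
      Module.finrank ℚ K ≤ d → ∀ j : K, j ≠ 0 → j ≠ 1728 → ∃ a b : 𝓞 K,
        4 * (a : K) ^ 3 + 27 * (b : K) ^ 2 ≠ 0 ∧ jinv (a : K) b = j ∧
        absH (a : K) + absH (b : K) ≤ κ * (1 + absH j)) := by
  classical
  refine ⟨count, one, fun n Y _ φ τ hn hτ => ?_, fun N d g κ τ hg hκ hτ => ?_, fun N d g κ τ δ hg hκ hτ hδ => ?_,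
    fun Y _ φ => ?_, EveryOneParameterFamily.result.2⟩
  rotate_left 2
  · obtain ⟨c₁, c₂, hc₁, h⟩ := Pool.Agent.D0H63.Moved.AllRationalApproximations.result.1 N d g κ τ δ hg hκ hτ hδ
    exact ⟨c₁, c₂, hc₁, fun Y _ φ => (h Y φ).1⟩
  · exact Pool.Agent.D0H63.Moved.AllRationalApproximations.result.2.1 Y φ
  · have hn1 : (1 : ℝ) ≤ n := by exact_mod_cast hn
    have hs0 : 0 ≤ ((n : ℝ) - 1) / τ := div_nonneg (by linarith) hτ.le
    have h1 : ∀ (q : ℕ × ℕ × ℕ × ℕ) (k : ℕ), ∃ (c₁ : ℝ) (c₂ : ℕ), 0 < c₁ ∧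
        ∃ E : Set Y, dimH E ≤ ENNReal.ofReal (((n : ℝ) - 1) / τ + 1 / ((k : ℝ) + 1)) ∧ ∀ ξ : Y, ξ ∉ E →
          ∀ A D : MvPolynomial (Fin n) ℤ, IsFunction n q.1 A D →
          HoldsNear φ c₁ c₂ q.2.1 (q.2.2.1 + 1) q.2.2.2 τ A D ξ := by
      intro q k
      obtain ⟨c₁, c₂, hc₁, h⟩ := one q.1 q.2.1 (q.2.2.1 + 1) q.2.2.2 τ (1 / ((k : ℝ) + 1))
        (by omega) (Nat.cast_nonneg _) hτ (by positivity)
      exact ⟨c₁, c₂, hc₁, h n Y φ⟩
    choose c₁ c₂ hc₁ E hE hE' using h1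
    refine ⟨⋃ q, ⋂ k, E q k, ?_, fun ξ hξ N d g κ hg hκ => ?_⟩
    · rw [dimH_iUnion]
      refine iSup_le fun q => ?_
      have h2 : ∀ k : ℕ, dimH (⋂ k, E q k) ≤ ENNReal.ofReal (((n : ℝ) - 1) / τ + 1 / ((k : ℝ) + 1)) := fun k =>
        (dimH_mono (Set.iInter_subset _ k)).trans (hE q k)
      refine Pool.Agent.N84.MD.dim_le_of_forall hs0 (fun D hD => ?_)
      obtain ⟨k, hk⟩ := exists_nat_one_div_lt (sub_pos.2 hD)
      exact (h2 k).trans (ENNReal.ofReal_le_ofReal (by linarith))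
    · obtain ⟨κ', hκ'⟩ := exists_nat_ge κ
      rw [Set.mem_iUnion] at hξ
      push Not at hξ
      have h3 := hξ (N, d, g - 1, κ')
      rw [Set.mem_iInter] at h3
      push Not at h3
      obtain ⟨k, hk⟩ := h3
      refine ⟨c₁ (N, d, g - 1, κ') k, c₂ (N, d, g - 1, κ') k, hc₁ (N, d, g - 1, κ') k, fun A D hR => ?_⟩
      have h4 := hE' (N, d, g - 1, κ') k ξ hk A D hR
      simp only [Nat.sub_add_cancel hg] at h4
      exact h4.mono hκ'
  · have hτ0 : 0 < τ := by linarith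
    have hgap : 0 < (1 - 1 / τ) / 2 := by
      have : 1 / τ < 1 := by rw [div_lt_one hτ0]; exact hτ
      linarith
    obtain ⟨c₁, c₂, hc₁, H⟩ := one N d g κ τ ((1 - 1 / τ) / 2) hg hκ hτ0 hgap
    refine ⟨c₁, c₂, hc₁, fun m hm => ?_⟩
    have hm1 : (1 : ℝ) ≤ m := by exact_mod_cast hm
    obtain ⟨E, hE, hE'⟩ := H (m + 1) (Fin m → ℝ) (fun v i => ((v i.succ : ℤ) : ℝ) / (v 0 : ℤ))
    have hnull : volume E = 0 := by
      refine Pool.Agent.D0H63.MR.null_of_dim hE (by push_cast; have := div_nonneg (show (0:ℝ) ≤ m + 1 - 1 by linarith) hτ0.le; linarith) ?_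
      rw [Fintype.card_fin]
      push_cast
      have h1 : ((m : ℝ) + 1 - 1) / τ = m * (1 / τ) := by ring
      rw [h1]
      have h2 : 0 < 1 - 1 / τ := by linarith
      nlinarith
    rw [ae_iff]
    refine measure_mono_null (fun ξ hξ => ?_) hnull
    by_contra hcon
    apply hξ
    intro A D hR C
    exact Pool.Agent.D0H63.MP.near_of_real hτ0 ξ {v | ¬ HoldsVec c₁ c₂ d g κ A D v} (hE' ξ hcon A D hR) C

end Pool.Agent.Results.MP_f5471b_nt.SeveralVariables
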